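import Pool.Agent.U325.PB.Two

/-!
Mean square in all residue classes to all moduli `≤ Q` for a function with small exponential sums and a bound
for the sum of its squares, and the mean square as a sum over the residue classes.
-/

set_option autoImplicit false

namespace Pool.Agent.U325.PA

open Finset
open Pool.Agent.U325.PB
open Pool.Agent.H807R2.Dav (ee ee_add norm_ee)
open Pool.Agent.H373R2.T7 (orth)

lemma lsE (f : ℕ → ℝ) (Y F : ℕ) (β E : ℝ) (hE : ∑ n ∈ Icc 1 Y, f n ^ 2 ≤ E) :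
    ∑ q ∈ Icc 1 F, frac f Y β q ≤ 6 * (Y + (F : ℝ) ^ 2) * E := by
  have h := Pool.Agent.Helper112.additive_large_sieve Y F (fun n => (f n : ℂ) * ee ((n : ℝ) * β))
  have h1 : ∑ n ∈ Icc 1 Y, ‖(f n : ℂ) * ee ((n : ℝ) * β)‖ ^ 2 ≤ E := by
    refine le_trans (le_of_eq (sum_congr rfl fun n _ => ?_)) hE
    rw [norm_mul, norm_ee, mul_one, Complex.norm_real, Real.norm_eq_abs, sq_abs]
  have h2 : ∑ q ∈ Icc 1 F, frac f Y β q = ∑ q ∈ Icc 1 F, ∑ c ∈ (range q).filter (fun c => c.Coprime q),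
      ‖∑ n ∈ Icc 1 Y, (f n : ℂ) * ee ((n : ℝ) * β) * Pool.Agent.Helper112.ee ((n : ℝ) * c / q)‖ ^ 2 := by
    refine sum_congr rfl fun q _ => ?_
    unfold frac
    refine sum_congr rfl fun c _ => ?_
    congr 2
    unfold G
    refine sum_congr rfl fun n _ => ?_
    have e1 : Pool.Agent.Helper112.ee ((n : ℝ) * c / q) = ee ((n : ℝ) * ((c : ℝ) / q)) := by
      unfold Pool.Agent.Helper112.ee ee
      congr 1
      push_cast
      ring
    rw [e1, mul_add, ee_add]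
    ring
  rw [h2]
  refine h.trans ?_
  exact mul_le_mul_of_nonneg_left h1 (by positivity)

lemma fracE (f : ℕ → ℝ) (Y Q q₀ : ℕ) (β η E : ℝ) (hE0 : 0 ≤ E) (hE : ∑ n ∈ Icc 1 Y, f n ^ 2 ≤ E)
    (hη : ∀ γ : ℝ, ‖G f Y γ‖ ≤ η) :
    ∑ q ∈ Icc 1 Q, frac f Y β q / q ≤ 2 * q₀ * η ^ 2 + 12 * ((Y : ℝ) * E) / (q₀ + 1) + 12 * (E * Q) := by
  set S : ℕ → ℝ := fun F => ∑ q ∈ Icc 1 F, frac f Y β q with hS
  have hS0 : ∀ F, 0 ≤ S F := fun F => sum_nonneg fun q _ => frac_nonneg f Y β q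
  have hY0 : (0 : ℝ) ≤ Y := Nat.cast_nonneg Y
  have hq0 : (0 : ℝ) ≤ q₀ := Nat.cast_nonneg q₀
  have b1 : ∀ F : ℕ, S F ≤ 6 * (Y + (F : ℝ) ^ 2) * E := fun F => lsE f Y F β E hE
  have b2 : ∀ F : ℕ, S F ≤ (F : ℝ) ^ 2 * η ^ 2 := fun F => triv_shift f Y F β η hη
  rw [abel]
  have h1 : S Q / (Q + 1) ≤ q₀ * η ^ 2 + 6 * ((Y : ℝ) * E) / (q₀ + 1) + 6 * (E * Q) := by
    have hQ : (0 : ℝ) < (Q : ℝ) + 1 := by positivity
    rcases Nat.lt_or_ge q₀ Q with h | h
    · have h2 : (q₀ : ℝ) ≤ Q := by exact_mod_cast h.le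
      calc S Q / (Q + 1) ≤ (6 * (Y + (Q : ℝ) ^ 2) * E) / (Q + 1) := div_le_div_of_nonneg_right (b1 Q) hQ.le
        _ = 6 * ((Y : ℝ) * E) / (Q + 1) + 6 * E * (Q ^ 2 / (Q + 1)) := by field_simp
        _ ≤ 6 * ((Y : ℝ) * E) / (q₀ + 1) + 6 * E * Q := by
            refine add_le_add (div_le_div_of_nonneg_left (by positivity) (by positivity) (by linarith)) ?_
            refine mul_le_mul_of_nonneg_left ?_ (by positivity)
            rw [div_le_iff₀ hQ]
            nlinarith [(Nat.cast_nonneg Q : (0:ℝ) ≤ Q)]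
        _ ≤ _ := by have : 0 ≤ (q₀ : ℝ) * η ^ 2 := by positivity
                    linarith
    · have h2 : (Q : ℝ) ≤ q₀ := by exact_mod_cast h
      calc S Q / (Q + 1) ≤ ((Q : ℝ) ^ 2 * η ^ 2) / (Q + 1) := div_le_div_of_nonneg_right (b2 Q) hQ.le
        _ = (Q ^ 2 / (Q + 1)) * η ^ 2 := by ring
        _ ≤ q₀ * η ^ 2 := by
            refine mul_le_mul_of_nonneg_right ?_ (sq_nonneg _)
            rw [div_le_iff₀ hQ]
            nlinarith [(Nat.cast_nonneg Q : (0:ℝ) ≤ Q)]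
        _ ≤ _ := by have : 0 ≤ 6 * ((Y : ℝ) * E) / (q₀ + 1) := by positivity
                    have : 0 ≤ 6 * (E * Q) := by positivity
                    linarith
  have h2 : ∑ F ∈ Icc 1 Q, S F / (F * (F + 1)) ≤ q₀ * η ^ 2 + 6 * ((Y : ℝ) * E) / (q₀ + 1) + 6 * (E * Q) := by
    have h3 : ∀ F ∈ Icc 1 Q, S F / (F * (F + 1)) ≤ (if F ≤ q₀ then η ^ 2 else 0) +
        6 * ((Y : ℝ) * E) * (if q₀ < F then 1 / ((F : ℝ) * (F + 1)) else 0) + 6 * E := by
      intro F hF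
      rw [mem_Icc] at hF
      have hFr : (1 : ℝ) ≤ F := by exact_mod_cast hF.1
      have hF2 : (0 : ℝ) < (F : ℝ) * (F + 1) := by positivity
      rcases Nat.lt_or_ge q₀ F with h | h
      · rw [if_neg (by omega), if_pos h]
        calc S F / (F * (F + 1)) ≤ (6 * (Y + (F : ℝ) ^ 2) * E) / (F * (F + 1)) := div_le_div_of_nonneg_right (b1 F) hF2.le
          _ = 6 * ((Y : ℝ) * E) * (1 / (F * (F + 1))) + 6 * E * (F ^ 2 / (F * (F + 1))) := by field_simp
          _ ≤ 6 * ((Y : ℝ) * E) * (1 / (F * (F + 1))) + 6 * E * 1 := by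
              refine add_le_add le_rfl (mul_le_mul_of_nonneg_left ?_ (by positivity))
              rw [div_le_one hF2]
              nlinarith
          _ = _ := by ring
      · rw [if_pos h, if_neg (by omega)]
        calc S F / (F * (F + 1)) ≤ ((F : ℝ) ^ 2 * η ^ 2) / (F * (F + 1)) := div_le_div_of_nonneg_right (b2 F) hF2.le
          _ = (F ^ 2 / (F * (F + 1))) * η ^ 2 := by ring
          _ ≤ 1 * η ^ 2 := by
              refine mul_le_mul_of_nonneg_right ?_ (sq_nonneg _)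
              rw [div_le_one hF2]
              nlinarith
          _ ≤ _ := by linarith
    refine (sum_le_sum h3).trans ?_
    rw [sum_add_distrib, sum_add_distrib, ← mul_sum]
    have h4 : ∑ F ∈ Icc 1 Q, (if F ≤ q₀ then η ^ 2 else 0) ≤ q₀ * η ^ 2 := by
      rw [← sum_filter, sum_const, nsmul_eq_mul]
      refine mul_le_mul_of_nonneg_right ?_ (sq_nonneg _)
      have : ((Icc 1 Q).filter (fun F => F ≤ q₀)).card ≤ (Icc 1 q₀).card :=
        card_le_card fun F hF => by rw [mem_filter, mem_Icc] at hF; rw [mem_Icc]; omega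
      rw [Nat.card_Icc] at this
      exact_mod_cast this.trans (by omega)
    have h5 : 6 * ((Y : ℝ) * E) * ∑ F ∈ Icc 1 Q, (if q₀ < F then 1 / ((F : ℝ) * (F + 1)) else 0) ≤
        6 * ((Y : ℝ) * E) / (q₀ + 1) := by
      have e1 := tele q₀ Q
      have e2 : 0 ≤ min (1 / ((q₀ : ℝ) + 1)) (1 / ((Q : ℝ) + 1)) := by positivity
      calc _ ≤ 6 * ((Y : ℝ) * E) * (1 / ((q₀ : ℝ) + 1)) := mul_le_mul_of_nonneg_left (by linarith) (by positivity)
        _ = _ := by ring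
    have h6 : ∑ _F ∈ Icc 1 Q, 6 * E = 6 * (E * Q) := by
      rw [sum_const, Nat.card_Icc, nsmul_eq_mul]; push_cast; ring
    rw [h6]
    linarith
  have h7 : 2 * (q₀ : ℝ) * η ^ 2 + 12 * ((Y : ℝ) * E) / (q₀ + 1) + 12 * (E * Q) =
      (q₀ * η ^ 2 + 6 * ((Y : ℝ) * E) / (q₀ + 1) + 6 * (E * Q)) +
        (q₀ * η ^ 2 + 6 * ((Y : ℝ) * E) / (q₀ + 1) + 6 * (E * Q)) := by ring
  rw [h7]
  exact add_le_add h1 h2

/-- **The mean square over all moduli.** -/
theorem bdhE (f : ℕ → ℝ) (Y Q q₀ : ℕ) (β η E : ℝ) (hE0 : 0 ≤ E) (hE : ∑ n ∈ Icc 1 Y, f n ^ 2 ≤ E)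
    (hη : ∀ γ : ℝ, ‖G f Y γ‖ ≤ η) :
    ∑ d ∈ Icc 1 Q, W f Y d β ≤
      (1 + Real.log Q) * (2 * q₀ * η ^ 2 + 12 * ((Y : ℝ) * E) / (q₀ + 1) + 12 * (E * Q)) := by
  have h1 : ∀ d ∈ Icc 1 Q, W f Y d β = ∑ q ∈ Icc 1 Q, frac f Y β q * (if q ∣ d then 1 / (d : ℝ) else 0) := by
    intro d hd
    rw [mem_Icc] at hd
    unfold W
    rw [Pool.Agent.Y816.PD.sum_frac d (by omega) (fun x => ‖G f Y (β + x)‖ ^ 2), sum_div]
    have e1 : ∀ q ∈ Icc 1 Q, frac f Y β q * (if q ∣ d then 1 / (d : ℝ) else 0) =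
        if q ∣ d then frac f Y β q / d else 0 := by
      intro q _
      split_ifs
      · ring
      · ring
    rw [sum_congr rfl e1, ← sum_filter]
    refine sum_congr ?_ fun q _ => rfl
    ext q
    rw [Nat.mem_divisors, mem_filter, mem_Icc]
    constructor
    · rintro ⟨a1, a2⟩
      exact ⟨⟨Nat.pos_of_dvd_of_pos a1 (by omega), (Nat.le_of_dvd (by omega) a1).trans hd.2⟩, a1⟩
    · rintro ⟨_, a1⟩
      exact ⟨a1, by omega⟩
  rw [sum_congr rfl h1, sum_comm]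
  rcases Nat.eq_zero_or_pos Q with hQ | hQ
  · subst hQ
    rw [Icc_eq_empty_of_lt (by norm_num), sum_empty]
    simp only [Nat.cast_zero, Real.log_zero, add_zero, one_mul, mul_zero]
    positivity
  have hlog : 0 ≤ Real.log Q := Real.log_nonneg (by exact_mod_cast hQ)
  calc ∑ q ∈ Icc 1 Q, ∑ d ∈ Icc 1 Q, frac f Y β q * (if q ∣ d then 1 / (d : ℝ) else 0)
      ≤ ∑ q ∈ Icc 1 Q, (1 + Real.log Q) * (frac f Y β q / q) := by
        refine sum_le_sum fun q hq => ?_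
        rw [mem_Icc] at hq
        rw [← mul_sum]
        calc frac f Y β q * ∑ d ∈ Icc 1 Q, (if q ∣ d then 1 / (d : ℝ) else 0)
            ≤ frac f Y β q * ((1 + Real.log Q) / q) := mul_le_mul_of_nonneg_left (mult_sum q Q hq.1) (frac_nonneg f Y β q)
          _ = _ := by ring
    _ = (1 + Real.log Q) * ∑ q ∈ Icc 1 Q, frac f Y β q / q := by rw [mul_sum]
    _ ≤ _ := mul_le_mul_of_nonneg_left (fracE f Y Q q₀ β η E hE0 hE hη) (by linarith)

/-- the sum over one residue class -/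
noncomputable def cls (f : ℕ → ℝ) (Y q l : ℕ) : ℝ := ∑ n ∈ (Icc 1 Y).filter (fun n => n % q = l), f n

/-- **The mean square is the sum over the residue classes.** -/
theorem W_cls (f : ℕ → ℝ) (Y q : ℕ) (hq : 1 ≤ q) : W f Y q 0 = ∑ l ∈ range q, cls f Y q l ^ 2 := by
  have hqr : (q : ℝ) ≠ 0 := by positivity
  have h1 : ((∑ b ∈ range q, ‖G f Y (0 + (b : ℝ) / q)‖ ^ 2 : ℝ) : ℂ) = ((q * ∑ l ∈ range q, cls f Y q l ^ 2 : ℝ) : ℂ) := by
    rw [Complex.ofReal_sum]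
    have e1 : ∀ b ∈ range q, ((‖G f Y (0 + (b : ℝ) / q)‖ ^ 2 : ℝ) : ℂ) = ∑ i ∈ Icc 1 Y, ∑ j ∈ Icc 1 Y,
        ((f i * f j : ℝ) : ℂ) * ee ((b : ℝ) * ((((i : ℤ) - (j : ℤ) : ℤ) : ℝ) / q)) := by
      intro b _
      rw [nsq, zero_add]
      refine sum_congr rfl fun i _ => sum_congr rfl fun j _ => ?_
      congr 2
      ring
    rw [sum_congr rfl e1, sum_comm]
    have e2 : ∀ i ∈ Icc 1 Y, ∑ b ∈ range q, ∑ j ∈ Icc 1 Y, ((f i * f j : ℝ) : ℂ) *
        ee ((b : ℝ) * ((((i : ℤ) - (j : ℤ) : ℤ) : ℝ) / q)) =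
        ∑ j ∈ Icc 1 Y, ((f i * f j * (if i % q = j % q then (q : ℝ) else 0) : ℝ) : ℂ) := by
      intro i _
      rw [sum_comm]
      refine sum_congr rfl fun j _ => ?_
      rw [← mul_sum, orth q hq]
      have e3 : (q : ℤ) ∣ (i : ℤ) - (j : ℤ) ↔ i % q = j % q := by
        rw [← Int.modEq_iff_dvd, Int.natCast_modEq_iff, Nat.ModEq]
        exact eq_comm
      rw [if_congr e3 rfl rfl]
      split_ifs
      · push_cast; ring
      · push_cast; ring
    rw [sum_congr rfl e2]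
    simp only [← Complex.ofReal_sum]
    congr 1
    have e4 : ∀ l ∈ range q, cls f Y q l ^ 2 = ∑ i ∈ Icc 1 Y, ∑ j ∈ Icc 1 Y,
        (if i % q = l then (if j % q = l then f i * f j else 0) else 0) := by
      intro l _
      unfold cls
      rw [sq, sum_filter, sum_mul_sum]
      refine sum_congr rfl fun i _ => sum_congr rfl fun j _ => ?_
      by_cases a1 : i % q = l
      · by_cases a2 : j % q = l
        · rw [if_pos a1, if_pos a2, if_pos a1, if_pos a2]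
        · rw [if_pos a1, if_neg a2, if_pos a1, if_neg a2, mul_zero]
      · rw [if_neg a1, if_neg a1, zero_mul]
    have e5 : ∑ l ∈ range q, cls f Y q l ^ 2 = ∑ i ∈ Icc 1 Y, ∑ j ∈ Icc 1 Y, ∑ l ∈ range q,
        (if i % q = l then (if j % q = l then f i * f j else 0) else 0) := by
      rw [sum_congr rfl e4, sum_comm]
      exact sum_congr rfl fun i _ => sum_comm
    rw [e5, mul_sum]
    refine sum_congr rfl fun i _ => ?_
    rw [mul_sum]
    refine sum_congr rfl fun j _ => ?_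
    have hi : i % q ∈ range q := mem_range.2 (Nat.mod_lt _ hq)
    rw [sum_eq_single_of_mem (i % q) hi (fun l _ hl => by rw [if_neg (Ne.symm hl)]), if_pos rfl]
    by_cases a2 : i % q = j % q
    · rw [if_pos a2, if_pos a2.symm]; ring
    · rw [if_neg a2, if_neg (fun h => a2 h.symm)]; ring
  have h2 : ∑ b ∈ range q, ‖G f Y (0 + (b : ℝ) / q)‖ ^ 2 = q * ∑ l ∈ range q, cls f Y q l ^ 2 := by exact_mod_cast h1
  unfold W
  rw [h2]
  field_simp

end Pool.Agent.U325.PA
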