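import Pool.Agent.U325.PA.Mean

/-!
Sieve functions do not see the parity of the number of prime factors in the residue classes `l` modulo `q`,
for almost all pairs `(q, l)`.
-/

set_option autoImplicit false

namespace Pool.Agent.U325.PA

open Finset Filter Topology
open Pool.Agent.U325.PB
open Pool.Agent.U325.PQ (ww)

/-- sieve weights of level `Z exp (-(log x) ^ δ)` -/
def IsSieve (C : ℕ) (δ : ℝ) (x : ℕ) (Z : ℝ) (ρ : ℕ → ℝ) : Prop :=
  ∀ d : ℕ, |ρ d| ≤ Real.log x ^ C * (d.divisors.card : ℝ) ^ C ∧ (Z * Real.exp (-(Real.log x) ^ δ) < d → ρ d = 0)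

/-- `∑_{d ∣ n} (ρ(d) + ∑_k t_k σ_k(d))` -/
noncomputable def comb {K : ℕ} (σ : Fin K → ℕ → ℝ) (ρ : ℕ → ℝ) (t : Fin K → ℝ) (n : ℕ) : ℝ :=
  ∑ d ∈ n.divisors, (ρ d + ∑ k, t k * σ k d)

/-- the integers of the class `l` modulo `q` in `(u, x]` -/
def prog (x u q l : ℕ) : Finset ℕ := (Ioc u x).filter (fun n => n % q = l)

/-- the sum over the divisors and over `k` -/
noncomputable def total {K : ℕ} (C x u Z : ℕ) (σ : Fin K → ℕ → ℝ) (z : ℕ × ℕ) : ℝ :=
  ∑ d ∈ Icc 1 Z, (d.divisors.card : ℝ) ^ C * |cls (vI u d) x z.1 z.2| + ∑ k, |cls (wI u (σ k)) x z.1 z.2|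

lemma cls_prog (F : ℕ → ℝ) (x u q l : ℕ) :
    ∑ n ∈ prog x u q l, F n = ∑ n ∈ (Icc 1 x).filter (fun n => n % q = l), if u < n then F n else 0 := by
  unfold prog
  rw [← sum_filter, filter_filter]
  refine sum_congr ?_ fun _ _ => rfl
  ext n
  rw [mem_filter, mem_filter, mem_Ioc, mem_Icc]
  constructor
  · rintro ⟨⟨h1, h2⟩, h3⟩
    exact ⟨⟨by omega, h2⟩, h3, h1⟩
  · rintro ⟨⟨h1, h2⟩, h3, h4⟩
    exact ⟨⟨h4, h2⟩, h3⟩

lemma comb_bound {K : ℕ} (C : ℕ) (δ : ℝ) (x u Z : ℕ) (Y : ℝ) (z : ℕ × ℕ) (hL : 1 ≤ Real.log x)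
    (hZ : ∀ d : ℕ, (d : ℝ) ≤ Y * Real.exp (-(Real.log x) ^ δ) → d ≤ Z)
    (σ : Fin K → ℕ → ℝ) (ρ : ℕ → ℝ) (t : Fin K → ℝ) (hρ : IsSieve C δ x Y ρ) (ht : ∀ k, |t k| ≤ Real.log x ^ C) :
    |∑ n ∈ prog x u z.1 z.2, lam n * comb σ ρ t n| ≤ Real.log x ^ C * total C x u Z σ z := by
  have h1 : ∑ n ∈ prog x u z.1 z.2, lam n * comb σ ρ t n =
      ∑ d ∈ Icc 1 Z, ρ d * cls (vI u d) x z.1 z.2 + ∑ k, t k * cls (wI u (σ k)) x z.1 z.2 := by
    rw [cls_prog]
    have e1 : ∑ d ∈ Icc 1 Z, ρ d * cls (vI u d) x z.1 z.2 =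
        ∑ n ∈ (Icc 1 x).filter (fun n => n % z.1 = z.2), ∑ d ∈ Icc 1 Z, ρ d * vI u d n := by
      unfold cls
      simp only [mul_sum]
      rw [sum_comm]
    have e2 : ∑ k, t k * cls (wI u (σ k)) x z.1 z.2 =
        ∑ n ∈ (Icc 1 x).filter (fun n => n % z.1 = z.2), ∑ k, t k * wI u (σ k) n := by
      unfold cls
      simp only [mul_sum]
      rw [sum_comm]
    rw [e1, e2, ← sum_add_distrib]
    refine sum_congr rfl fun n hn => ?_
    rw [mem_filter, mem_Icc] at hn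
    have hn1 := hn.1.1
    by_cases hu : u < n
    · rw [if_pos hu]
      have f1 : ∑ d ∈ Icc 1 Z, ρ d * vI u d n = ∑ d ∈ n.divisors, lam n * ρ d := by
        have g1 : ∑ d ∈ Icc 1 Z, ρ d * vI u d n = ∑ d ∈ (Icc 1 Z).filter (fun d => d ∣ n), lam n * ρ d := by
          rw [sum_filter]
          refine sum_congr rfl fun d _ => ?_
          unfold vI vE
          rw [if_pos hu]
          split_ifs
          · ring
          · ring
        rw [g1]
        refine sum_subset ?_ ?_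
        · intro d hd
          rw [mem_filter] at hd
          exact Nat.mem_divisors.2 ⟨hd.2, by omega⟩
        · intro d hd hd2
          rw [Nat.mem_divisors] at hd
          have h2 : ρ d = 0 := by
            refine (hρ d).2 ?_
            by_contra hcon
            push Not at hcon
            apply hd2
            rw [mem_filter, mem_Icc]
            exact ⟨⟨Nat.pos_of_dvd_of_pos hd.1 (by omega), hZ d hcon⟩, hd.1⟩
          rw [h2, mul_zero]
      have f2 : ∑ k, t k * wI u (σ k) n = ∑ d ∈ n.divisors, lam n * ∑ k, t k * σ k d := by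
        unfold wI ww
        simp only [if_pos hu, mul_sum]
        rw [sum_comm]
        exact sum_congr rfl fun d _ => sum_congr rfl fun k _ => by ring
      rw [f1, f2]
      unfold comb
      rw [mul_sum, ← sum_add_distrib]
      exact sum_congr rfl fun d _ => by ring
    · rw [if_neg hu]
      have f1 : ∑ d ∈ Icc 1 Z, ρ d * vI u d n = 0 := sum_eq_zero fun d _ => by unfold vI; rw [if_neg hu, mul_zero]
      have f2 : ∑ k, t k * wI u (σ k) n = 0 := sum_eq_zero fun k _ => by unfold wI; rw [if_neg hu, mul_zero]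
      rw [f1, f2, add_zero]
  rw [h1]
  unfold total
  rw [mul_add, mul_sum, mul_sum]
  refine (abs_add_le _ _).trans (add_le_add ?_ ?_)
  · refine (abs_sum_le_sum_abs _ _).trans (sum_le_sum fun d _ => ?_)
    rw [abs_mul, ← mul_assoc]
    exact mul_le_mul_of_nonneg_right (hρ d).1 (abs_nonneg _)
  · refine (abs_sum_le_sum_abs _ _).trans (sum_le_sum fun k _ => ?_)
    rw [abs_mul]
    exact mul_le_mul_of_nonneg_right (ht k) (abs_nonneg _)

/-- **The exceptional set.** -/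
theorem few (A C : ℕ) (δ : ℝ) (hδ : 0 < δ) : ∃ x₀ : ℕ, ∀ x : ℕ, x₀ ≤ x → 1 ≤ Real.log x ∧
    ∀ (K Q u : ℕ) (σ : Fin K → ℕ → ℝ), (K : ℝ) ≤ Real.log x ^ C → 1 ≤ Q →
    (Q : ℝ) ≤ x * Real.exp (-(Real.log x) ^ δ) → u ≤ x → (∀ k, IsSieve C δ x x (σ k)) →
    ∃ E : Finset (ℕ × ℕ), (E.card : ℝ) ≤ (Q : ℝ) ^ 2 / Real.log x ^ A ∧ ∀ z ∈ cl Q, z ∉ E →
      Real.log x ^ C * total C x u ⌊(x : ℝ) / Q * Real.exp (-(Real.log x) ^ δ)⌋₊ σ z ≤ x / (Q * Real.log x ^ A) := by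
  set V : ℕ := 2 * A + 2 * C + 1 with hV
  set U : ℕ := (2 ^ (2 * C) + 4 + 2 * V) + (2 ^ (2 * C + 2) + 2 * C + 2 + 2 * V) with hU
  obtain ⟨X₁, h1⟩ := sup_int δ hδ U
  obtain ⟨X₂, h2⟩ := ev_exp δ hδ U (256 * 2 ^ (2 ^ (2 * C)) + 64 * 2 ^ (2 ^ (2 * C + 2)) + 2)
  refine ⟨max X₁ X₂, fun x hx => ?_⟩
  obtain ⟨hx1, hL1, hLB, hexp⟩ := h2 x ((le_max_right _ _).trans hx)
  have hsup := h1 x ((le_max_left _ _).trans hx)
  refine ⟨hL1, fun K Q u σ hK hQ1 hQx hux hσ => ?_⟩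
  have hxr : (1 : ℝ) ≤ x := by exact_mod_cast hx1
  have hx0 : (0 : ℝ) < x := by linarith
  have hQr : (1 : ℝ) ≤ Q := by exact_mod_cast hQ1
  have hQ0 : (0 : ℝ) < Q := by linarith
  set L := Real.log x with hLd
  have hL0 : 0 < L := by linarith
  have q1 : (0 : ℝ) < 256 * 2 ^ (2 ^ (2 * C)) := by positivity
  have q2 : (0 : ℝ) < 64 * 2 ^ (2 ^ (2 * C + 2)) := by positivity
  have hLU : 0 < L ^ U := by positivity
  have hexp1 : Real.exp (-L ^ δ) ≤ 1 / L ^ U := by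
    rw [Real.exp_neg, ← one_div]
    exact one_div_le_one_div_of_le hLU hexp
  have hexp2 : Real.exp (-L ^ δ) ≤ 1 := hexp1.trans (by rw [div_le_one hLU]; exact one_le_pow₀ hL1)
  set Z : ℕ := ⌊(x : ℝ) / Q * Real.exp (-L ^ δ)⌋₊ with hZ
  set Z2 : ℕ := ⌊(x : ℝ) * Real.exp (-L ^ δ)⌋₊ with hZ2
  have hZr : (Z : ℝ) ≤ x / Q * Real.exp (-L ^ δ) := Nat.floor_le (by positivity)
  have hZ2r : (Z2 : ℝ) ≤ x * Real.exp (-L ^ δ) := Nat.floor_le (by positivity)
  have hxQ : (x : ℝ) / Q ≤ x := div_le_self hx0.le hQr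
  have hZr' : (Z : ℝ) ≤ x * Real.exp (-L ^ δ) := hZr.trans (mul_le_mul_of_nonneg_right hxQ (Real.exp_pos _).le)
  have hZX : Z ≤ x := by
    have : (Z : ℝ) ≤ x := hZr'.trans (mul_le_of_le_one_right hx0.le hexp2)
    exact_mod_cast this
  have hZ2X : Z2 ≤ x := by
    have : (Z2 : ℝ) ≤ x := hZ2r.trans (mul_le_of_le_one_right hx0.le hexp2)
    exact_mod_cast this
  have hQX : (Q : ℝ) ≤ x / L ^ U := by
    refine hQx.trans ?_
    rw [div_eq_mul_one_div]
    exact mul_le_mul_of_nonneg_left hexp1 hx0.le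
  have hQX' : Q ≤ x := by
    have : (Q : ℝ) ≤ x := hQx.trans (mul_le_of_le_one_right hx0.le hexp2)
    exact_mod_cast this
  have hQZ : (Q : ℝ) * Z ≤ x / L ^ U := by
    calc (Q : ℝ) * Z ≤ Q * (x / Q * Real.exp (-L ^ δ)) := mul_le_mul_of_nonneg_left hZr hQ0.le
      _ = x * Real.exp (-L ^ δ) := by field_simp
      _ ≤ x * (1 / L ^ U) := mul_le_mul_of_nonneg_left hexp1 hx0.le
      _ = _ := by ring
  have hS1 : ∀ d ∈ Icc 1 Z, ∀ t : ℝ, ‖G (vI u d) x t‖ ≤ 2 * (x / d / L ^ U) := by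
    intro d hd t
    rw [mem_Icc] at hd
    have : (d : ℝ) ≤ Z := by exact_mod_cast hd.2
    exact hsup u hux d hd.1 (this.trans hZr') t
  have hS2 : ∀ d ∈ Icc 1 Z2, ∀ t : ℝ, ‖G (vI u d) x t‖ ≤ 2 * (x / d / L ^ U) := by
    intro d hd t
    rw [mem_Icc] at hd
    have : (d : ℝ) ≤ Z2 := by exact_mod_cast hd.2
    exact hsup u hux d hd.1 (this.trans hZ2r) t
  have hm1 := mean1 x u Q Z C U V L hL1 hx1 hQ1 hQX' (by linarith) hS1 hQZ hZX
    (by rw [hU]; exact Nat.le_add_right _ _) (by linarith)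
  have hm2 : ∀ k, ∑ z ∈ cl Q, |cls (wI u (σ k)) x z.1 z.2| ≤ (Q : ℝ) * x / L ^ V := fun k =>
    mean2 x u Q Z2 C U V L hL1 hx1 hQ1 hQX (by linarith) hS2 hZ2X (by rw [hU]; exact Nat.le_add_left _ _) (by linarith)
      (σ k) (fun e he => (hσ k e).2 (Nat.lt_of_floor_lt he)) (fun e => (hσ k e).1)
  have hLC : 1 ≤ L ^ C := one_le_pow₀ hL1
  set thr : ℝ := x / (Q * L ^ (A + C)) with hthr
  have hthr0 : 0 < thr := by positivity
  have ht0 : ∀ z, 0 ≤ total C x u Z σ z := fun z =>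
    add_nonneg (sum_nonneg fun d _ => by positivity) (sum_nonneg fun k _ => abs_nonneg _)
  refine ⟨(cl Q).filter (fun z => thr < total C x u Z σ z), ?_, ?_⟩
  · set E := (cl Q).filter (fun z => thr < total C x u Z σ z) with hE
    have hcount : (E.card : ℝ) * thr ≤ ∑ z ∈ cl Q, total C x u Z σ z := by
      calc (E.card : ℝ) * thr = ∑ z ∈ E, thr := by rw [sum_const, nsmul_eq_mul]
        _ ≤ ∑ z ∈ E, total C x u Z σ z := sum_le_sum fun z hz => (mem_filter.1 hz).2.le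
        _ ≤ ∑ z ∈ cl Q, total C x u Z σ z :=
            sum_le_sum_of_subset_of_nonneg (filter_subset _ _) fun z _ _ => ht0 z
    have hsum : ∑ z ∈ cl Q, total C x u Z σ z ≤ 2 * L ^ C * ((Q : ℝ) * x / L ^ V) := by
      unfold total
      rw [sum_add_distrib, sum_comm (s := cl Q) (t := univ)]
      have e1 : ∑ k, ∑ z ∈ cl Q, |cls (wI u (σ k)) x z.1 z.2| ≤ L ^ C * ((Q : ℝ) * x / L ^ V) := by
        calc ∑ k, ∑ z ∈ cl Q, |cls (wI u (σ k)) x z.1 z.2| ≤ ∑ _k : Fin K, (Q : ℝ) * x / L ^ V := sum_le_sum fun k _ => hm2 k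
          _ = K * ((Q : ℝ) * x / L ^ V) := by rw [sum_const, card_univ, Fintype.card_fin, nsmul_eq_mul]
          _ ≤ _ := mul_le_mul_of_nonneg_right hK (by positivity)
      have e2 : (Q : ℝ) * x / L ^ V ≤ L ^ C * ((Q : ℝ) * x / L ^ V) := le_mul_of_one_le_left (by positivity) hLC
      linarith
    have h4 : (E.card : ℝ) * thr ≤ (Q : ℝ) ^ 2 / L ^ A * thr := by
      refine (hcount.trans hsum).trans ?_
      rw [hthr]
      have e1 : 2 * L ^ C * ((Q : ℝ) * x / L ^ V) = 2 * ((Q : ℝ) * x / L ^ (2 * A + C + 1)) := by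
        rw [hV, show 2 * A + 2 * C + 1 = (2 * A + C + 1) + C by ring, pow_add L (2 * A + C + 1) C]
        field_simp
      have e2 : (Q : ℝ) ^ 2 / L ^ A * (x / (Q * L ^ (A + C))) = L * ((Q : ℝ) * x / L ^ (2 * A + C + 1)) := by
        rw [show 2 * A + C + 1 = A + (A + C) + 1 by ring, pow_add L (A + (A + C)) 1, pow_add L A (A + C), pow_one]
        field_simp
      rw [e1, e2]
      exact mul_le_mul_of_nonneg_right (by linarith) (by positivity)
    exact le_of_mul_le_mul_right h4 hthr0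
  · intro z hz hzE
    have h3 : total C x u Z σ z ≤ thr := by
      by_contra hcon
      push Not at hcon
      exact hzE (mem_filter.2 ⟨hz, hcon⟩)
    calc L ^ C * total C x u Z σ z ≤ L ^ C * thr := mul_le_mul_of_nonneg_left h3 (by positivity)
      _ = x / (Q * L ^ A) := by
          rw [hthr, pow_add]
          field_simp

end Pool.Agent.U325.PA
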