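import Pool.Agent.U325.PA.Sup

/-!
The means over the residue classes, the moduli and the divisors.
-/

set_option autoImplicit false

namespace Pool.Agent.U325.PA

open Finset
open Pool.Agent.U325.PB
open Pool.Agent.U325.PQ (ww tau_sum ww_eq ww_sq)

/-- the pairs of a modulus `q ≤ Q` and a residue class `l` modulo `q` -/
def cl (Q : ℕ) : Finset (ℕ × ℕ) := (Icc 1 Q ×ˢ range Q).filter (fun z => z.2 < z.1)

lemma mem_cl {Q : ℕ} {z : ℕ × ℕ} : z ∈ cl Q ↔ 1 ≤ z.1 ∧ z.1 ≤ Q ∧ z.2 < z.1 := by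
  unfold cl
  rw [mem_filter, mem_product, mem_Icc, mem_range]
  constructor
  · rintro ⟨⟨⟨h1, h2⟩, _⟩, h4⟩
    exact ⟨h1, h2, h4⟩
  · rintro ⟨h1, h2, h3⟩
    exact ⟨⟨⟨h1, h2⟩, by omega⟩, h3⟩

lemma card_cl (Q : ℕ) : ((cl Q).card : ℝ) ≤ (Q : ℝ) ^ 2 := by
  have h1 : (cl Q).card ≤ (Icc 1 Q ×ˢ range Q).card := card_filter_le _ _
  rw [card_product, Nat.card_Icc, card_range, Nat.add_sub_cancel] at h1
  calc ((cl Q).card : ℝ) ≤ ((Q * Q : ℕ) : ℝ) := by exact_mod_cast h1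
    _ = (Q : ℝ) ^ 2 := by push_cast; ring

lemma sum_cl (Q : ℕ) (F : ℕ → ℕ → ℝ) : ∑ z ∈ cl Q, F z.1 z.2 = ∑ q ∈ Icc 1 Q, ∑ l ∈ range q, F q l := by
  unfold cl
  rw [sum_filter, sum_product]
  dsimp only
  refine sum_congr rfl fun q hq => ?_
  rw [mem_Icc] at hq
  rw [← sum_filter]
  refine sum_congr ?_ fun _ _ => rfl
  ext l
  rw [mem_filter, mem_range, mem_range]
  omega

/-- **The mean over the divisors, the moduli and the classes.** -/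
theorem mean1 (X u Q Z C U V : ℕ) (L : ℝ) (hL : 1 ≤ L) (hX : 1 ≤ X) (hQ1 : 1 ≤ Q) (hQX : Q ≤ X)
    (hlog : 1 + Real.log X ≤ 2 * L)
    (hS : ∀ d ∈ Icc 1 Z, ∀ t : ℝ, ‖G (vI u d) X t‖ ≤ 2 * (X / d / L ^ U)) (hZ : (Q : ℝ) * Z ≤ X / L ^ U) (hZX : Z ≤ X)
    (hU : 2 ^ (2 * C) + 4 + 2 * V ≤ U) (hc : 256 * 2 ^ (2 ^ (2 * C)) ≤ L) :
    ∑ z ∈ cl Q, ∑ d ∈ Icc 1 Z, (d.divisors.card : ℝ) ^ C * |cls (vI u d) X z.1 z.2| ≤ (Q : ℝ) * X / L ^ V := by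
  have hL0 : 0 < L := by linarith
  have hXr : (1 : ℝ) ≤ X := by exact_mod_cast hX
  have hX0 : (0 : ℝ) < X := by linarith
  have hQr : (1 : ℝ) ≤ Q := by exact_mod_cast hQ1
  have hLU : 0 < L ^ U := by positivity
  have hts : ∀ k : ℕ, Pool.Agent.U325.PB.tsum k X ≤ (2 * L) ^ (2 ^ k) := fun k =>
    (tsum_le k X hX).trans (pow_le_pow_left₀ (by have := Real.log_nonneg hXr; linarith) hlog _)
  have hlogQ : 1 + Real.log Q ≤ 2 * L := by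
    have : Real.log Q ≤ Real.log X := Real.log_le_log (by linarith) (by exact_mod_cast hQX)
    linarith
  have hlogQ0 : 0 ≤ 1 + Real.log Q := by have := Real.log_nonneg hQr; linarith
  set q₀ : ℕ := ⌊L ^ U⌋₊ with hq₀
  have hq1 : (q₀ : ℝ) ≤ L ^ U := Nat.floor_le hLU.le
  have hq2 : L ^ U ≤ (q₀ : ℝ) + 1 := (Nat.lt_floor_add_one _).le
  -- one divisor
  have hone : ∀ d ∈ Icc 1 Z, (d : ℝ) * ∑ z ∈ cl Q, cls (vI u d) X z.1 z.2 ^ 2 ≤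
      2 * L * (20 * (X : ℝ) ^ 2 / L ^ U * ((d.divisors.card : ℝ) ^ 1 / d) + 12 * X * Q * (d.divisors.card : ℝ) ^ 1) := by
    intro d hd
    have hd1 := (mem_Icc.1 hd).1
    have hdr : (0 : ℝ) < d := by exact_mod_cast hd1
    have e1 : ∑ z ∈ cl Q, cls (vI u d) X z.1 z.2 ^ 2 = ∑ q ∈ Icc 1 Q, W (gI u d) (X / d) (q / Nat.gcd q d) 0 := by
      rw [sum_cl Q (fun q l => cls (vI u d) X q l ^ 2)]
      refine sum_congr rfl fun q hq => ?_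
      rw [mem_Icc] at hq
      rw [← W_vI u d X q hd1 hq.1, W_cls _ _ _ hq.1]
    have hY : ((X / d : ℕ) : ℝ) ≤ (X : ℝ) / d := Nat.cast_div_le
    have hE : ∑ n ∈ Icc 1 (X / d), gI u d n ^ 2 ≤ (X : ℝ) / d := by
      refine le_trans (sum_le_sum fun n _ => gI_sq u d n) ?_
      rw [sum_const, Nat.card_Icc, Nat.add_sub_cancel, nsmul_eq_mul, mul_one]
      exact hY
    have hη : ∀ γ : ℝ, ‖G (gI u d) (X / d) γ‖ ≤ 2 * (X / d / L ^ U) := fun γ => by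
      rw [G_gI u d X hd1 γ]
      exact hS d hd _
    have e2 := bdhE (gI u d) (X / d) Q q₀ 0 _ _ (by positivity) hE hη
    have e3 : 2 * (q₀ : ℝ) * (2 * (X / d / L ^ U)) ^ 2 + 12 * (((X / d : ℕ) : ℝ) * ((X : ℝ) / d)) / (q₀ + 1) +
        12 * ((X : ℝ) / d * Q) ≤ 20 * (X : ℝ) ^ 2 / L ^ U * (1 / d) / d + 12 * X * Q / d := by
      have a1 : 2 * (q₀ : ℝ) * (2 * (X / d / L ^ U)) ^ 2 ≤ 8 * (X : ℝ) ^ 2 / L ^ U * (1 / d) / d := by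
        calc 2 * (q₀ : ℝ) * (2 * (X / d / L ^ U)) ^ 2 ≤ 2 * L ^ U * (2 * (X / d / L ^ U)) ^ 2 := by gcongr
          _ = _ := by field_simp; ring
      have a2 : 12 * (((X / d : ℕ) : ℝ) * ((X : ℝ) / d)) / (q₀ + 1) ≤ 12 * (X : ℝ) ^ 2 / L ^ U * (1 / d) / d := by
        calc 12 * (((X / d : ℕ) : ℝ) * ((X : ℝ) / d)) / (q₀ + 1) ≤ 12 * ((X : ℝ) / d * ((X : ℝ) / d)) / L ^ U := by gcongr
          _ = _ := by field_simp
      have a3 : 12 * ((X : ℝ) / d * Q) = 12 * X * Q / d := by ring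
      rw [a3]
      have a4 : 20 * (X : ℝ) ^ 2 / L ^ U * (1 / d) / d = 8 * (X : ℝ) ^ 2 / L ^ U * (1 / d) / d +
        12 * (X : ℝ) ^ 2 / L ^ U * (1 / d) / d := by ring
      rw [a4]
      linarith
    have e4 : ∑ q ∈ Icc 1 Q, W (gI u d) (X / d) q 0 ≤ 2 * L * (20 * (X : ℝ) ^ 2 / L ^ U * (1 / d) / d + 12 * X * Q / d) := by
      refine e2.trans ?_
      refine mul_le_mul hlogQ e3 (by positivity) (by positivity)
    rw [e1]
    have e5 := (sum_Wf (gI u d) d (X / d) Q hd1 0).trans (mul_le_mul_of_nonneg_left e4 (Nat.cast_nonneg _))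
    calc (d : ℝ) * ∑ q ∈ Icc 1 Q, W (gI u d) (X / d) (q / Nat.gcd q d) 0
        ≤ d * ((d.divisors.card : ℝ) * (2 * L * (20 * (X : ℝ) ^ 2 / L ^ U * (1 / d) / d + 12 * X * Q / d))) :=
          mul_le_mul_of_nonneg_left e5 hdr.le
      _ = _ := by field_simp
  -- the sum over the divisors
  have hB2 : ∑ d ∈ Icc 1 Z, (d : ℝ) * ∑ z ∈ cl Q, cls (vI u d) X z.1 z.2 ^ 2 ≤ 256 * (X : ℝ) ^ 2 * L ^ 3 / L ^ U := by
    refine (sum_le_sum hone).trans ?_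
    rw [← mul_sum, sum_add_distrib, ← mul_sum, ← mul_sum]
    have e1 : ∑ d ∈ Icc 1 Z, (d.divisors.card : ℝ) ^ 1 / d ≤ (2 * L) ^ 2 := by
      calc ∑ d ∈ Icc 1 Z, (d.divisors.card : ℝ) ^ 1 / d ≤ Pool.Agent.U325.PB.tsum 1 X := by
            unfold Pool.Agent.U325.PB.tsum
            exact sum_le_sum_of_subset_of_nonneg (Icc_subset_Icc_right hZX) fun _ _ _ => by positivity
        _ ≤ _ := by have := hts 1; norm_num at this; exact this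
    have e2 : ∑ d ∈ Icc 1 Z, (d.divisors.card : ℝ) ^ 1 ≤ Z * (2 * L) ^ 2 := by
      refine (tau_sum 1 Z).trans (mul_le_mul_of_nonneg_left ?_ (Nat.cast_nonneg _))
      refine le_trans ?_ e1
      exact le_rfl
    calc 2 * L * (20 * (X : ℝ) ^ 2 / L ^ U * ∑ d ∈ Icc 1 Z, (d.divisors.card : ℝ) ^ 1 / d +
          12 * X * Q * ∑ d ∈ Icc 1 Z, (d.divisors.card : ℝ) ^ 1)
        ≤ 2 * L * (20 * (X : ℝ) ^ 2 / L ^ U * (2 * L) ^ 2 + 12 * X * Q * (Z * (2 * L) ^ 2)) := by gcongr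
      _ = 2 * L * (20 * (X : ℝ) ^ 2 / L ^ U * (2 * L) ^ 2 + 12 * X * (2 * L) ^ 2 * (Q * Z)) := by ring
      _ ≤ 2 * L * (20 * (X : ℝ) ^ 2 / L ^ U * (2 * L) ^ 2 + 12 * X * (2 * L) ^ 2 * (X / L ^ U)) := by gcongr
      _ = _ := by field_simp; ring
  have hB1 : ∑ z ∈ cl Q ×ˢ Icc 1 Z, ((z.2.divisors.card : ℝ) ^ C) ^ 2 / z.2 ≤ (Q : ℝ) ^ 2 * (2 * L) ^ (2 ^ (2 * C)) := by
    rw [sum_product]
    dsimp only
    rw [sum_const, nsmul_eq_mul]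
    refine mul_le_mul (card_cl Q) ?_ (sum_nonneg fun _ _ => by positivity) (by positivity)
    calc ∑ d ∈ Icc 1 Z, ((d.divisors.card : ℝ) ^ C) ^ 2 / d = ∑ d ∈ Icc 1 Z, (d.divisors.card : ℝ) ^ (2 * C) / d :=
          sum_congr rfl fun d _ => by rw [← pow_mul, mul_comm C 2]
      _ ≤ Pool.Agent.U325.PB.tsum (2 * C) X := by
          unfold Pool.Agent.U325.PB.tsum
          exact sum_le_sum_of_subset_of_nonneg (Icc_subset_Icc_right hZX) fun _ _ _ => by positivity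
      _ ≤ _ := hts _
  have hB2' : ∑ z ∈ cl Q ×ˢ Icc 1 Z, (z.2 : ℝ) * cls (vI u z.2) X z.1.1 z.1.2 ^ 2 ≤ 256 * (X : ℝ) ^ 2 * L ^ 3 / L ^ U := by
    rw [sum_product_right]
    refine le_trans (le_of_eq ?_) hB2
    refine sum_congr rfl fun d _ => ?_
    rw [mul_sum]
  rw [← sum_product' (cl Q) (Icc 1 Z) (fun z d => (d.divisors.card : ℝ) ^ C * |cls (vI u d) X z.1 z.2|)]
  have hsq : (∑ z ∈ cl Q ×ˢ Icc 1 Z, (z.2.divisors.card : ℝ) ^ C * |cls (vI u z.2) X z.1.1 z.1.2|) ^ 2 ≤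
      ((Q : ℝ) * X / L ^ V) ^ 2 := by
    have e1 := sum_sq_le_sum_mul_sum_of_sq_le_mul (cl Q ×ˢ Icc 1 Z)
      (r := fun z => (z.2.divisors.card : ℝ) ^ C * |cls (vI u z.2) X z.1.1 z.1.2|)
      (f := fun z => ((z.2.divisors.card : ℝ) ^ C) ^ 2 / z.2)
      (g := fun z => (z.2 : ℝ) * cls (vI u z.2) X z.1.1 z.1.2 ^ 2) (fun z _ => by positivity)
      (fun z _ => by positivity) (fun z hz => by
        rw [mem_product, mem_Icc] at hz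
        have a1 : (z.2 : ℝ) ≠ 0 := by have := hz.2.1; positivity
        rw [mul_pow, sq_abs]
        apply le_of_eq
        field_simp)
    refine e1.trans ?_
    calc _ ≤ ((Q : ℝ) ^ 2 * (2 * L) ^ (2 ^ (2 * C))) * (256 * (X : ℝ) ^ 2 * L ^ 3 / L ^ U) :=
          mul_le_mul hB1 hB2' (sum_nonneg fun _ _ => by positivity) (by positivity)
      _ = (Q : ℝ) ^ 2 * (X : ℝ) ^ 2 * ((256 * 2 ^ (2 ^ (2 * C))) * L ^ (2 ^ (2 * C) + 3)) / L ^ U := by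
          rw [mul_pow, pow_add L (2 ^ (2 * C))]
          ring
      _ ≤ (Q : ℝ) ^ 2 * (X : ℝ) ^ 2 / L ^ (2 * V) := by
          rw [div_le_div_iff₀ (by positivity) (by positivity), mul_assoc]
          refine mul_le_mul_of_nonneg_left ?_ (by positivity)
          calc (256 * 2 ^ (2 ^ (2 * C))) * L ^ (2 ^ (2 * C) + 3) * L ^ (2 * V)
              ≤ L * L ^ (2 ^ (2 * C) + 3) * L ^ (2 * V) := by gcongr
            _ = L ^ (2 ^ (2 * C) + 4 + 2 * V) := by rw [← pow_succ', ← pow_add]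
            _ ≤ L ^ U := pow_le_pow_right₀ hL hU
      _ = _ := by rw [div_pow, mul_pow, ← pow_mul, mul_comm V 2]
  exact (pow_le_pow_iff_left₀ (sum_nonneg fun _ _ => by positivity) (by positivity) (by norm_num)).1 hsq

/-- **The mean for a fixed sieve function.** -/
theorem mean2 (X u Q Z C U V : ℕ) (L : ℝ) (hL : 1 ≤ L) (hX : 1 ≤ X) (hQ1 : 1 ≤ Q) (hQX : (Q : ℝ) ≤ X / L ^ U)
    (hlog : 1 + Real.log X ≤ 2 * L)
    (hS : ∀ d ∈ Icc 1 Z, ∀ t : ℝ, ‖G (vI u d) X t‖ ≤ 2 * (X / d / L ^ U)) (hZX : Z ≤ X)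
    (hU : 2 ^ (2 * C + 2) + 2 * C + 2 + 2 * V ≤ U) (hc : 64 * 2 ^ (2 ^ (2 * C + 2)) ≤ L)
    (σ : ℕ → ℝ) (hσ : ∀ e, Z < e → σ e = 0) (hσ2 : ∀ e, |σ e| ≤ L ^ C * (e.divisors.card : ℝ) ^ C) :
    ∑ z ∈ cl Q, |cls (wI u σ) X z.1 z.2| ≤ (Q : ℝ) * X / L ^ V := by
  have hL0 : 0 < L := by linarith
  have hXr : (1 : ℝ) ≤ X := by exact_mod_cast hX
  have hX0 : (0 : ℝ) < X := by linarith
  have hQr : (1 : ℝ) ≤ Q := by exact_mod_cast hQ1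
  have hLU : 0 < L ^ U := by positivity
  have hQX' : (Q : ℝ) ≤ X := hQX.trans (div_le_self hX0.le (one_le_pow₀ hL))
  have hts : ∀ k : ℕ, Pool.Agent.U325.PB.tsum k X ≤ (2 * L) ^ (2 ^ k) := fun k =>
    (tsum_le k X hX).trans (pow_le_pow_left₀ (by have := Real.log_nonneg hXr; linarith) hlog _)
  have hlogQ : 1 + Real.log Q ≤ 2 * L := by
    have : Real.log Q ≤ Real.log X := Real.log_le_log (by linarith) hQX'
    linarith
  have hlogQ0 : 0 ≤ 1 + Real.log Q := by have := Real.log_nonneg hQr; linarith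
  set q₀ : ℕ := ⌊L ^ U⌋₊ with hq₀
  have hq1 : (q₀ : ℝ) ≤ L ^ U := Nat.floor_le hLU.le
  have hq2 : L ^ U ≤ (q₀ : ℝ) + 1 := (Nat.lt_floor_add_one _).le
  set m₀ : ℝ := (L ^ C) ^ 2 * (2 * L) ^ (2 ^ (2 * C + 2)) with hm₀
  set s₀ : ℝ := 2 * L ^ C * (2 * L) ^ (2 ^ C) / L ^ U with hs₀
  have hm0 : 0 < m₀ := by positivity
  have hs0 : 0 ≤ s₀ := by positivity
  have hsup : ∀ t : ℝ, ‖G (wI u σ) X t‖ ≤ X * s₀ := by
    intro t
    refine (wI_sup u σ C Z X (L ^ C) (L ^ U) (by positivity) (by positivity) hZX hσ hσ2 hS t).trans ?_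
    refine mul_le_mul_of_nonneg_left ?_ (Nat.cast_nonneg _)
    rw [hs₀]
    have := hts C
    gcongr
  have hsq : ∑ n ∈ Icc 1 X, wI u σ n ^ 2 ≤ X * m₀ := by
    refine (wI_sq u σ C X (L ^ C) (by positivity) hσ2).trans ?_
    rw [hm₀]
    have := hts (2 * C + 2)
    calc (L ^ C) ^ 2 * (X * Pool.Agent.U325.PB.tsum (2 * C + 2) X) ≤ (L ^ C) ^ 2 * (X * (2 * L) ^ (2 ^ (2 * C + 2))) := by gcongr
      _ = _ := by ring
  have e1 : ∑ z ∈ cl Q, cls (wI u σ) X z.1 z.2 ^ 2 = ∑ q ∈ Icc 1 Q, W (wI u σ) X q 0 := by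
    rw [sum_cl Q (fun q l => cls (wI u σ) X q l ^ 2)]
    refine sum_congr rfl fun q hq => ?_
    rw [mem_Icc] at hq
    rw [W_cls _ _ _ hq.1]
  have e2 := bdhE (wI u σ) X Q q₀ 0 _ _ (by positivity) hsq hsup
  have e3 : 2 * (q₀ : ℝ) * (X * s₀) ^ 2 + 12 * ((X : ℝ) * (X * m₀)) / (q₀ + 1) + 12 * (X * m₀ * Q) ≤
      32 * m₀ * (X : ℝ) ^ 2 / L ^ U := by
    have a0 : ((2 * L) ^ (2 ^ C)) ^ 2 ≤ (2 * L) ^ (2 ^ (2 * C + 2)) := by
      rw [← pow_mul]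
      refine pow_le_pow_right₀ (by linarith) ?_
      rw [← pow_succ]
      exact Nat.pow_le_pow_right (by norm_num) (by omega)
    have a1 : 2 * (q₀ : ℝ) * (X * s₀) ^ 2 ≤ 8 * m₀ * (X : ℝ) ^ 2 / L ^ U := by
      calc 2 * (q₀ : ℝ) * (X * s₀) ^ 2 ≤ 2 * L ^ U * (X * s₀) ^ 2 := by gcongr
        _ = 8 * ((L ^ C) ^ 2 * ((2 * L) ^ (2 ^ C)) ^ 2) * (X : ℝ) ^ 2 / L ^ U := by
            rw [hs₀]; field_simp; ring
        _ ≤ 8 * ((L ^ C) ^ 2 * (2 * L) ^ (2 ^ (2 * C + 2))) * (X : ℝ) ^ 2 / L ^ U := by gcongr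
        _ = _ := by rw [hm₀]
    have a2 : 12 * ((X : ℝ) * (X * m₀)) / (q₀ + 1) ≤ 12 * m₀ * (X : ℝ) ^ 2 / L ^ U := by
      calc 12 * ((X : ℝ) * (X * m₀)) / (q₀ + 1) ≤ 12 * ((X : ℝ) * (X * m₀)) / L ^ U := by gcongr
        _ = _ := by ring
    have a3 : 12 * (X * m₀ * Q) ≤ 12 * m₀ * (X : ℝ) ^ 2 / L ^ U := by
      calc 12 * (X * m₀ * Q) ≤ 12 * (X * m₀ * (X / L ^ U)) := by gcongr
        _ = _ := by ring
    have a4 : 32 * m₀ * (X : ℝ) ^ 2 / L ^ U = 8 * m₀ * (X : ℝ) ^ 2 / L ^ U + 12 * m₀ * (X : ℝ) ^ 2 / L ^ U +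
      12 * m₀ * (X : ℝ) ^ 2 / L ^ U := by ring
    rw [a4]
    linarith
  have h3 : ∑ z ∈ cl Q, cls (wI u σ) X z.1 z.2 ^ 2 ≤ 2 * L * (32 * m₀ * (X : ℝ) ^ 2 / L ^ U) := by
    rw [e1]
    refine e2.trans ?_
    exact mul_le_mul hlogQ e3 (by positivity) (by positivity)
  have hcs : (∑ z ∈ cl Q, |cls (wI u σ) X z.1 z.2|) ^ 2 ≤ ((Q : ℝ) * X / L ^ V) ^ 2 := by
    have f1 : (∑ z ∈ cl Q, |cls (wI u σ) X z.1 z.2|) ^ 2 ≤
        ((cl Q).card : ℝ) * ∑ z ∈ cl Q, |cls (wI u σ) X z.1 z.2| ^ 2 := sq_sum_le_card_mul_sum_sq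
    simp only [sq_abs] at f1
    refine f1.trans ?_
    calc ((cl Q).card : ℝ) * ∑ z ∈ cl Q, cls (wI u σ) X z.1 z.2 ^ 2
        ≤ (Q : ℝ) ^ 2 * (2 * L * (32 * m₀ * (X : ℝ) ^ 2 / L ^ U)) :=
          mul_le_mul (card_cl Q) h3 (sum_nonneg fun _ _ => sq_nonneg _) (by positivity)
      _ = (Q : ℝ) ^ 2 * (X : ℝ) ^ 2 * ((64 * 2 ^ (2 ^ (2 * C + 2))) * L ^ (2 ^ (2 * C + 2) + 2 * C + 1)) / L ^ U := by
          rw [hm₀, mul_pow, pow_add L, pow_add L, ← pow_mul, mul_comm C 2]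
          ring
      _ ≤ (Q : ℝ) ^ 2 * (X : ℝ) ^ 2 / L ^ (2 * V) := by
          rw [div_le_div_iff₀ (by positivity) (by positivity), mul_assoc]
          refine mul_le_mul_of_nonneg_left ?_ (by positivity)
          calc (64 * 2 ^ (2 ^ (2 * C + 2))) * L ^ (2 ^ (2 * C + 2) + 2 * C + 1) * L ^ (2 * V)
              ≤ L * L ^ (2 ^ (2 * C + 2) + 2 * C + 1) * L ^ (2 * V) := by gcongr
            _ = L ^ (2 ^ (2 * C + 2) + 2 * C + 2 + 2 * V) := by rw [← pow_succ', ← pow_add]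
            _ ≤ L ^ U := pow_le_pow_right₀ hL hU
      _ = _ := by rw [div_pow, mul_pow, ← pow_mul, mul_comm V 2]
  exact (pow_le_pow_iff_left₀ (sum_nonneg fun _ _ => abs_nonneg _) (by positivity) (by norm_num)).1 hcs

end Pool.Agent.U325.PA
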