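import Pool.Agent.U325.PA.Form

/-!
Almost all moduli: almost all residue classes, and the sum over all reduced classes.
-/

set_option autoImplicit false

namespace Pool.Agent.U325.PA

open Finset Filter Topology
open Pool.Agent.U325.PB
open ArithmeticFunction (cardFactors)

lemma prog_card (x u q l : ℕ) (_hq : 1 ≤ q) : ((prog x u q l).card : ℝ) ≤ (x : ℝ) / q + 1 := by
  have h1 : (prog x u q l).card ≤ (range (x / q + 1)).card := by
    refine card_le_card_of_injOn (fun n => n / q) ?_ ?_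
    · intro n hn
      rw [mem_coe] at hn ⊢
      unfold prog at hn
      rw [mem_filter, mem_Ioc] at hn
      rw [mem_range]
      have := Nat.div_le_div_right (c := q) hn.1.2
      show n / q < x / q + 1
      omega
    · intro a ha b hb hab
      rw [mem_coe] at ha hb
      unfold prog at ha hb
      rw [mem_filter] at ha hb
      dsimp only at hab
      rw [← Nat.div_add_mod a q, ← Nat.div_add_mod b q, hab, ha.2, hb.2]
  rw [card_range] at h1
  have h2 : ((x / q : ℕ) : ℝ) ≤ (x : ℝ) / q := Nat.cast_div_le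
  have h3 : ((prog x u q l).card : ℝ) ≤ ((x / q + 1 : ℕ) : ℝ) := by exact_mod_cast h1
  push_cast at h3
  linarith

lemma lower (s : Finset ℕ) (F : ℕ → ℝ) (B : ℝ) (h : |∑ n ∈ s, lam n * F n| ≤ B)
    (h1 : ∀ n ∈ s, Even (cardFactors n) → F n ≤ 0) : ∑ n ∈ s, F n ≤ B := by
  have h3 : ∑ n ∈ s, F n ≤ -∑ n ∈ s, lam n * F n := by
    rw [← sum_neg_distrib]
    refine sum_le_sum fun n hn => ?_
    unfold lam
    rcases Nat.even_or_odd (cardFactors n) with he | ho
    · rw [he.neg_one_pow]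
      have := h1 n hn he
      linarith
    · rw [ho.neg_one_pow]
      linarith
  have := (abs_le.1 h).1
  linarith

lemma twice (s : Finset ℕ) (F : ℕ → ℝ) (B : ℝ) (h : |∑ n ∈ s, lam n * F n| ≤ B)
    (h1 : ∀ n ∈ s, 0 ≤ F n) (h2 : ∀ n ∈ s, n.Prime → 1 ≤ F n) :
    2 * ((s.filter Nat.Prime).card : ℝ) - B ≤ ∑ n ∈ s, F n := by
  have h3 : 2 * ((s.filter Nat.Prime).card : ℝ) ≤ ∑ n ∈ s, (F n - lam n * F n) := by
    have e1 : 2 * ((s.filter Nat.Prime).card : ℝ) = ∑ n ∈ s, if n.Prime then (2 : ℝ) else 0 := by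
      rw [← sum_filter, sum_const, nsmul_eq_mul]
      ring
    rw [e1]
    refine sum_le_sum fun n hn => ?_
    have hF := h1 n hn
    unfold lam
    by_cases hp : n.Prime
    · rw [if_pos hp]
      have hF1 := h2 n hn hp
      rw [ArithmeticFunction.cardFactors_apply_prime hp]
      norm_num
      linarith
    · rw [if_neg hp]
      rcases neg_one_pow_eq_or ℝ (cardFactors n) with h4 | h4 <;> rw [h4] <;> linarith
  rw [sum_sub_distrib] at h3
  have := (abs_le.1 h).1
  linarith

/-- the reduced residue classes -/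
def red (q : ℕ) : Finset ℕ := (range q).filter (fun l => l.Coprime q)

lemma primes_red (x u q : ℕ) (hq : 1 ≤ q) :
    (((Ioc u x).filter Nat.Prime).card : ℝ) ≤ ∑ l ∈ red q, (((prog x u q l).filter Nat.Prime).card : ℝ) + q.primeFactors.card := by
  have h1 : (Ioc u x).filter Nat.Prime ⊆ ((red q).biUnion fun l => (prog x u q l).filter Nat.Prime) ∪ q.primeFactors := by
    intro p hp
    rw [mem_filter] at hp
    rw [mem_union, mem_biUnion]
    by_cases hd : p ∣ q
    · right
      exact Nat.mem_primeFactors.2 ⟨hp.2, hd, by omega⟩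
    · left
      refine ⟨p % q, ?_, ?_⟩
      · unfold red
        rw [mem_filter, mem_range]
        refine ⟨Nat.mod_lt _ hq, ?_⟩
        have h2 : p.Coprime q := (Nat.Prime.coprime_iff_not_dvd hp.2).2 hd
        unfold Nat.Coprime at h2 ⊢
        rw [← h2, Nat.gcd_comm p q, Nat.gcd_rec q p]
      · unfold prog
        rw [mem_filter, mem_filter]
        exact ⟨⟨hp.1, rfl⟩, hp.2⟩
  have h2 := (card_le_card h1).trans ((card_union_le _ _).trans (Nat.add_le_add_right card_biUnion_le _))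
  calc (((Ioc u x).filter Nat.Prime).card : ℝ) ≤
      ((∑ l ∈ red q, ((prog x u q l).filter Nat.Prime).card + q.primeFactors.card : ℕ) : ℝ) := by exact_mod_cast h2
    _ = _ := by push_cast; rfl

lemma omega_le (q x : ℕ) (hq : 1 ≤ q) (hqx : q ≤ x) : (q.primeFactors.card : ℝ) ≤ 2 * Real.log x := by
  have h1 : (2 : ℕ) ^ q.primeFactors.card ≤ q := by
    calc 2 ^ q.primeFactors.card ≤ ∏ p ∈ q.primeFactors, p :=
          Finset.pow_card_le_prod _ _ _ fun p hp => (Nat.prime_of_mem_primeFactors hp).two_le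
      _ ≤ q := Nat.le_of_dvd hq (Nat.prod_primeFactors_dvd q)
  have h2 : (2 : ℝ) ^ q.primeFactors.card ≤ x := by
    have : (2 : ℕ) ^ q.primeFactors.card ≤ x := h1.trans hqx
    exact_mod_cast this
  have h3 := Real.log_le_log (by positivity) h2
  rw [Real.log_pow] at h3
  have h4 := Real.log_two_gt_d9
  have h5 : (0 : ℝ) ≤ q.primeFactors.card := Nat.cast_nonneg _
  nlinarith

/-- **Almost all moduli.** -/
theorem moduli (A C : ℕ) (δ : ℝ) (hδ : 0 < δ) : ∃ x₀ : ℕ, ∀ x : ℕ, x₀ ≤ x →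
    ∀ (K Q u : ℕ) (σ : Fin K → ℕ → ℝ), (K : ℝ) ≤ Real.log x ^ C → 1 ≤ Q →
    (Q : ℝ) ≤ x * Real.exp (-(Real.log x) ^ δ) → u ≤ x → (∀ k, IsSieve C δ x x (σ k)) →
    ∃ E : Finset ℕ, (E.card : ℝ) ≤ Q / Real.log x ^ A ∧ ∀ q : ℕ, Q < 2 * q → q ≤ Q → q ∉ E →
      (∃ B : Finset ℕ, (B.card : ℝ) ≤ Q / Real.log x ^ A ∧ ∀ l : ℕ, l < q → l ∉ B →
        ∀ (ρ : ℕ → ℝ) (t : Fin K → ℝ), IsSieve C δ x ((x : ℝ) / Q) ρ → (∀ k, |t k| ≤ Real.log x ^ C) →
          |∑ n ∈ prog x u q l, lam n * comb σ ρ t n| ≤ x / (Q * Real.log x ^ A)) ∧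
      ∀ (ρ : ℕ → ℕ → ℝ) (t : ℕ → Fin K → ℝ), (∀ l, IsSieve C δ x ((x : ℝ) / Q) (ρ l)) → (∀ l k, |t l k| ≤ Real.log x ^ C) →
        (∀ l ∈ red q, ∀ n ∈ prog x u q l, 0 ≤ comb σ (ρ l) (t l) n) →
        (∀ l ∈ red q, ∀ n ∈ prog x u q l, n.Prime → 1 ≤ comb σ (ρ l) (t l) n) →
        2 * (((Ioc u x).filter Nat.Prime).card : ℝ) - x / Real.log x ^ A ≤
          ∑ l ∈ red q, ∑ n ∈ prog x u q l, comb σ (ρ l) (t l) n := by
  obtain ⟨X₁, h1⟩ := few (2 * A + 2) C δ hδ
  obtain ⟨X₂, h2⟩ := ev_exp 1 (by norm_num) (A + 3) 12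
  refine ⟨max X₁ X₂, fun x hx K Q u σ hK hQ1 hQx hux hσ => ?_⟩
  obtain ⟨hL1, hfew⟩ := h1 x ((le_max_left _ _).trans hx)
  obtain ⟨hx1, -, hL12, hexp⟩ := h2 x ((le_max_right _ _).trans hx)
  obtain ⟨E', hE', hgood⟩ := hfew K Q u σ hK hQ1 hQx hux hσ
  have hxr : (1 : ℝ) ≤ x := by exact_mod_cast hx1
  have hx0 : (0 : ℝ) < x := by linarith
  have hQr : (1 : ℝ) ≤ Q := by exact_mod_cast hQ1
  have hQ0 : (0 : ℝ) < Q := by linarith
  set L := Real.log x with hLd
  have hL0 : 0 < L := by linarith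
  rw [Real.rpow_one, hLd, Real.exp_log hx0, ← hLd] at hexp
  have hexp2 : Real.exp (-L ^ δ) ≤ 1 := by
    rw [Real.exp_le_one_iff]
    have : 0 ≤ L ^ δ := Real.rpow_nonneg hL0.le _
    linarith
  have hQX' : Q ≤ x := by
    have : (Q : ℝ) ≤ x := hQx.trans (mul_le_of_le_one_right hx0.le hexp2)
    exact_mod_cast this
  have hQXr : (Q : ℝ) ≤ x := by exact_mod_cast hQX'
  -- the bad classes
  set bad : ℕ → Finset ℕ := fun q => (range q).filter (fun l => (q, l) ∈ E') with hbad
  set thr : ℝ := Q / L ^ (A + 1) with hthr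
  have hthr0 : 0 < thr := by positivity
  have hthrA : thr ≤ Q / L ^ A := div_le_div_of_nonneg_left hQ0.le (by positivity) (pow_le_pow_right₀ hL1 (by omega))
  set E : Finset ℕ := (Icc 1 Q).filter (fun q => thr < ((bad q).card : ℝ)) with hE
  have hcl : ∀ q l : ℕ, 1 ≤ q → q ≤ Q → l < q → l ∉ bad q → ∀ (ρ : ℕ → ℝ) (t : Fin K → ℝ),
      IsSieve C δ x ((x : ℝ) / Q) ρ → (∀ k, |t k| ≤ L ^ C) →
      |∑ n ∈ prog x u q l, lam n * comb σ ρ t n| ≤ x / (Q * L ^ (2 * A + 2)) := by
    intro q l hq1 hqQ hl hlb ρ t hρ ht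
    have e1 : (q, l) ∈ cl Q := mem_cl.2 ⟨hq1, hqQ, hl⟩
    have e2 : (q, l) ∉ E' := fun h => hlb (by rw [hbad]; exact mem_filter.2 ⟨mem_range.2 hl, h⟩)
    refine le_trans ?_ (hgood (q, l) e1 e2)
    exact comb_bound C δ x u _ ((x : ℝ) / Q) (q, l) hL1 (fun d hd => Nat.le_floor hd) σ ρ t hρ ht
  refine ⟨E, ?_, ?_⟩
  · have e1 : (E.card : ℝ) * thr ≤ (E'.card : ℝ) := by
      calc (E.card : ℝ) * thr = ∑ _q ∈ E, thr := by rw [sum_const, nsmul_eq_mul]
        _ ≤ ∑ q ∈ E, ((bad q).card : ℝ) := sum_le_sum fun q hq => (mem_filter.1 hq).2.le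
        _ = ((∑ q ∈ E, (bad q).card : ℕ) : ℝ) := by push_cast; rfl
        _ ≤ (E'.card : ℝ) := by
            have f1 : ∑ q ∈ E, (bad q).card = (E.sigma bad).card := (card_sigma _ _).symm
            rw [f1]
            have f2 : (E.sigma bad).card ≤ E'.card := by
              refine card_le_card_of_injOn (fun y => (y.1, y.2)) ?_ ?_
              · intro y hy
                rw [mem_coe, mem_sigma] at hy
                rw [mem_coe]
                have := hy.2
                rw [hbad] at this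
                exact (mem_filter.1 this).2
              · intro a _ b _ hab
                simp only [Prod.mk.injEq] at hab
                exact Sigma.ext hab.1 (heq_of_eq hab.2)
            exact_mod_cast f2
    have e2 : (E.card : ℝ) * thr ≤ (Q / L ^ A) * thr := by
      refine (e1.trans hE').trans ?_
      rw [hthr, show 2 * A + 2 = A + (A + 1) + 1 by ring]
      calc (Q : ℝ) ^ 2 / L ^ (A + (A + 1) + 1) ≤ (Q : ℝ) ^ 2 / L ^ (A + (A + 1)) :=
            div_le_div_of_nonneg_left (by positivity) (by positivity) (pow_le_pow_right₀ hL1 (by omega))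
        _ = _ := by rw [pow_add]; field_simp
    exact le_of_mul_le_mul_right e2 hthr0
  · intro q hQ2 hqQ hqE
    have hq1 : 1 ≤ q := by omega
    have hqr : (1 : ℝ) ≤ q := by exact_mod_cast hq1
    have hq0 : (0 : ℝ) < q := by linarith
    have hbq : ((bad q).card : ℝ) ≤ thr := by
      by_contra hcon
      push Not at hcon
      exact hqE (mem_filter.2 ⟨mem_Icc.2 ⟨hq1, hqQ⟩, hcon⟩)
    refine ⟨⟨bad q, hbq.trans hthrA, fun l hl hlb ρ t hρ ht => ?_⟩, ?_⟩
    · refine (hcl q l hq1 hqQ hl hlb ρ t hρ ht).trans ?_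
      exact div_le_div_of_nonneg_left hx0.le (by positivity)
        (mul_le_mul_of_nonneg_left (pow_le_pow_right₀ hL1 (by omega)) hQ0.le)
    · intro ρ t hρ ht hF0 hF1
      have hone : ∀ l ∈ red q, 2 * (((prog x u q l).filter Nat.Prime).card : ℝ) - x / (Q * L ^ (2 * A + 2)) -
          (if l ∈ bad q then 2 * ((x : ℝ) / q + 1) else 0) ≤ ∑ n ∈ prog x u q l, comb σ (ρ l) (t l) n := by
        intro l hl
        have hlq : l < q := by unfold red at hl; exact mem_range.1 (mem_filter.1 hl).1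
        by_cases hb : l ∈ bad q
        · rw [if_pos hb]
          have e1 : 0 ≤ ∑ n ∈ prog x u q l, comb σ (ρ l) (t l) n := sum_nonneg (hF0 l hl)
          have e2 : (((prog x u q l).filter Nat.Prime).card : ℝ) ≤ (x : ℝ) / q + 1 := by
            refine le_trans ?_ (prog_card x u q l hq1)
            exact_mod_cast card_filter_le _ _
          have e3 : 0 ≤ (x : ℝ) / (Q * L ^ (2 * A + 2)) := by positivity
          linarith
        · rw [if_neg hb, sub_zero]
          exact twice _ _ _ (hcl q l hq1 hqQ hlq hb (ρ l) (t l) (hρ l) (ht l)) (hF0 l hl) (hF1 l hl)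
      have hsum := sum_le_sum hone
      rw [sum_sub_distrib, sum_sub_distrib, ← mul_sum, sum_const, nsmul_eq_mul] at hsum
      have hred : ((red q).card : ℝ) ≤ Q := by
        have : (red q).card ≤ Q := by
          unfold red
          refine (card_filter_le _ _).trans ?_
          rw [card_range]
          exact hqQ
        exact_mod_cast this
      have b1 : ((red q).card : ℝ) * (x / (Q * L ^ (2 * A + 2))) ≤ x / L ^ (A + 1) := by
        calc ((red q).card : ℝ) * (x / (Q * L ^ (2 * A + 2))) ≤ Q * (x / (Q * L ^ (2 * A + 2))) :=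
              mul_le_mul_of_nonneg_right hred (by positivity)
          _ = x / L ^ (2 * A + 2) := by field_simp
          _ ≤ _ := div_le_div_of_nonneg_left hx0.le (by positivity) (pow_le_pow_right₀ hL1 (by omega))
      have b2 : ∑ l ∈ red q, (if l ∈ bad q then 2 * ((x : ℝ) / q + 1) else 0) ≤ 6 * (x / L ^ (A + 1)) := by
        rw [← sum_filter, sum_const, nsmul_eq_mul]
        have c1 : (((red q).filter (fun l => l ∈ bad q)).card : ℝ) ≤ thr := by
          refine le_trans ?_ hbq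
          exact_mod_cast card_le_card fun l hl => (mem_filter.1 hl).2
        have c2 : (x : ℝ) / q + 1 ≤ 3 * (x / Q) := by
          have d1 : (Q : ℝ) ≤ 2 * q := by exact_mod_cast hQ2.le
          have d2 : (x : ℝ) / q ≤ 2 * (x / Q) := by
            rw [div_le_iff₀ hq0]
            calc (x : ℝ) = (x / Q) * Q := by field_simp
              _ ≤ (x / Q) * (2 * q) := mul_le_mul_of_nonneg_left d1 (by positivity)
              _ = _ := by ring
          have d3 : 1 ≤ (x : ℝ) / Q := by rw [le_div_iff₀ hQ0, one_mul]; exact hQXr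
          linarith
        calc (((red q).filter (fun l => l ∈ bad q)).card : ℝ) * (2 * ((x : ℝ) / q + 1)) ≤ thr * (2 * (3 * (x / Q))) := by gcongr
          _ = _ := by rw [hthr]; field_simp; ring
      have b3 : 2 * (q.primeFactors.card : ℝ) ≤ x / L ^ (A + 1) := by
        rw [le_div_iff₀ (by positivity)]
        have := omega_le q x hq1 (hqQ.trans hQX')
        calc 2 * (q.primeFactors.card : ℝ) * L ^ (A + 1) ≤ 2 * (2 * L) * L ^ (A + 1) := by gcongr
          _ = 4 * L ^ (A + 2) := by ring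
          _ ≤ L * L ^ (A + 2) := mul_le_mul_of_nonneg_right (by linarith) (by positivity)
          _ = L ^ (A + 3) := by ring
          _ ≤ x := hexp
      have b4 := primes_red x u q hq1
      have b5 : 8 * ((x : ℝ) / L ^ (A + 1)) ≤ x / L ^ A := by
        rw [pow_succ L A, ← div_div, mul_div_assoc']
        rw [div_le_iff₀ hL0]
        have : 0 ≤ (x : ℝ) / L ^ A := by positivity
        nlinarith
      linarith

end Pool.Agent.U325.PA
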