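import Pool.Agent.U325.PA.Bdh
import Pool.Agent.U325.PQ.Mean

/-!
The function of Liouville on the multiples of `d` in an interval `(u, X]`: exponential sums, and the passage
from the residue classes modulo `q` to the cofactors.
-/

set_option autoImplicit false

namespace Pool.Agent.U325.PA

open Finset
open Pool.Agent.U325.PB
open Pool.Agent.U325.PQ (ww tau_sum ww_eq ww_sq)
open Pool.Agent.H807R2.Dav (ee ee_add norm_ee)

/-- the function of Liouville on the multiples of `d` beyond `u` -/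
noncomputable def vI (u d n : ℕ) : ℝ := if u < n then vE d n else 0

/-- the cofactors -/
noncomputable def gI (u d m : ℕ) : ℝ := if u < d * m then lam m else 0

lemma gI_sq (u d m : ℕ) : gI u d m ^ 2 ≤ 1 := by
  unfold gI
  split_ifs
  · rw [sq, lam_sq]
  · norm_num

lemma G_vI (u d X : ℕ) (hu : u ≤ X) (t : ℝ) : G (vI u d) X t = G (vE d) X t - G (vE d) u t := by
  unfold G
  have h1 : ∑ l ∈ Icc 1 u, (vE d l : ℂ) * ee ((l : ℝ) * t) =
      ∑ l ∈ Icc 1 X, if l ≤ u then (vE d l : ℂ) * ee ((l : ℝ) * t) else 0 := by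
    rw [← sum_filter]
    refine sum_congr ?_ fun _ _ => rfl
    ext l
    rw [mem_filter, mem_Icc, mem_Icc]
    omega
  rw [h1, ← sum_sub_distrib]
  refine sum_congr rfl fun l _ => ?_
  unfold vI
  by_cases h : u < l
  · rw [if_pos h, if_neg (by omega), sub_zero]
  · rw [if_neg h, if_pos (by omega), sub_self]
    push_cast
    ring

lemma G_triv (d u : ℕ) (t : ℝ) : ‖G (vE d) u t‖ ≤ (u : ℝ) / d := by
  unfold G
  refine (norm_sum_le _ _).trans ?_
  refine le_trans (sum_le_sum fun n _ => ?_) (sum_vE d u)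
  rw [norm_mul, norm_ee, mul_one, Complex.norm_real, Real.norm_eq_abs]
  unfold vE
  split_ifs
  · rw [lam_abs, sq, lam_sq]
  · simp

lemma sup_pre (δ : ℝ) (hδ : 0 < δ) (U : ℕ) : ∃ X₀ : ℕ, ∀ X : ℕ, X₀ ≤ X → ∀ u : ℕ, u ≤ X → ∀ d : ℕ, 1 ≤ d →
    (d : ℝ) ≤ X * Real.exp (-(Real.log X) ^ δ) → ∀ t : ℝ, ‖G (vE d) u t‖ ≤ X / d / Real.log X ^ U := by
  obtain ⟨X₁, h1⟩ := sup_mult (δ / 2) (by positivity) (U + 1)
  obtain ⟨X₂, h2⟩ := ev_exp (δ / 2) (by positivity) (max U 1) (2 ^ (U + 1) + X₁)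
  obtain ⟨X₃, h3⟩ := ev_exp 1 (by norm_num) (2 * U + 1) 2
  obtain ⟨X₄, h4⟩ := ev_exp (δ / 2) (by positivity) 0 1
  obtain ⟨N, hN⟩ := exists_nat_ge ((2 : ℝ) ^ (2 / δ))
  obtain ⟨X₅, h5⟩ := ev_exp 1 (by norm_num) 0 N
  refine ⟨max X₂ (max X₃ X₅), fun X hX u hu d hd hdX t => ?_⟩
  obtain ⟨hX1, hL1, hLB, hexp⟩ := h2 X ((le_max_left _ _).trans hX)
  obtain ⟨-, -, hL2, hexp3⟩ := h3 X (((le_max_left _ _).trans (le_max_right _ _)).trans hX)
  obtain ⟨-, -, hLN, -⟩ := h5 X (((le_max_right _ _).trans (le_max_right _ _)).trans hX)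
  set L := Real.log X with hL
  have hL0 : 0 < L := by linarith
  have hXr : (0 : ℝ) < X := by exact_mod_cast hX1
  have hdr : (0 : ℝ) < d := by exact_mod_cast hd
  have hX1' : (0 : ℝ) ≤ X₁ := Nat.cast_nonneg _
  have p2 : (0 : ℝ) < 2 ^ (U + 1) := by positivity
  have hLU : 0 < L ^ U := by positivity
  rw [Real.rpow_one, hL, Real.exp_log hXr, ← hL] at hexp3
  rcases le_or_gt ((u : ℝ) * L ^ U) X with hc | hc
  · refine (G_triv d u t).trans ?_
    rw [div_div, mul_comm (d : ℝ), ← div_div]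
    refine div_le_div_of_nonneg_right ?_ hdr.le
    rw [le_div_iff₀ hLU]
    exact hc
  -- the long sums
  have hu0 : (0 : ℝ) < u := by
    by_contra hcon
    have : (u : ℝ) = 0 := le_antisymm (not_lt.1 hcon) (Nat.cast_nonneg _)
    rw [this, zero_mul] at hc
    linarith
  have hu2 : (X : ℝ) ≤ (u : ℝ) ^ 2 := by
    have e1 : (X : ℝ) ^ 2 ≤ (u : ℝ) ^ 2 * L ^ (2 * U) := by
      calc (X : ℝ) ^ 2 ≤ ((u : ℝ) * L ^ U) ^ 2 := pow_le_pow_left₀ hXr.le hc.le 2
        _ = _ := by rw [mul_pow, ← pow_mul, mul_comm U 2]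
    have e2 : L ^ (2 * U) ≤ X := (pow_le_pow_right₀ hL1 (by omega)).trans hexp3
    have e3 : (X : ℝ) * X ≤ (u : ℝ) ^ 2 * X := by
      calc (X : ℝ) * X = (X : ℝ) ^ 2 := by ring
        _ ≤ (u : ℝ) ^ 2 * L ^ (2 * U) := e1
        _ ≤ _ := mul_le_mul_of_nonneg_left e2 (by positivity)
    exact le_of_mul_le_mul_right e3 hXr
  have hlogu : L / 2 ≤ Real.log u := by
    have := Real.log_le_log hXr hu2
    rw [Real.log_pow] at this
    push_cast at this
    linarith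
  have hlogu2 : Real.log u ≤ L := Real.log_le_log hu0 (by exact_mod_cast hu)
  have huX : X₁ ≤ u := by
    have e1 : (X₁ : ℝ) * L ^ U ≤ (u : ℝ) * L ^ U := by
      calc (X₁ : ℝ) * L ^ U ≤ L * L ^ U := mul_le_mul_of_nonneg_right (by linarith) hLU.le
        _ = L ^ (U + 1) := by ring
        _ ≤ L ^ (2 * U + 1) := pow_le_pow_right₀ hL1 (by omega)
        _ ≤ X := hexp3
        _ ≤ (u : ℝ) * L ^ U := hc.le
    exact_mod_cast le_of_mul_le_mul_right e1 hLU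
  have hx2 : 2 ≤ L ^ (δ / 2) := by
    have e1 : (2 : ℝ) ^ (2 / δ) ≤ L := hN.trans hLN
    calc (2 : ℝ) = ((2 : ℝ) ^ (2 / δ)) ^ (δ / 2) := by
          rw [← Real.rpow_mul (by norm_num)]
          have : 2 / δ * (δ / 2) = 1 := by field_simp
          rw [this, Real.rpow_one]
      _ ≤ L ^ (δ / 2) := Real.rpow_le_rpow (by positivity) e1 (by positivity)
  have hdu : (d : ℝ) ≤ u * Real.exp (-(Real.log u) ^ (δ / 2)) := by
    have e0 : L ^ U ≤ Real.exp (L ^ (δ / 2)) := (pow_le_pow_right₀ hL1 (le_max_left _ _)).trans hexp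
    have e1 : L ^ δ = L ^ (δ / 2) * L ^ (δ / 2) := by rw [← Real.rpow_add hL0]; ring_nf
    have e2 : (Real.log u) ^ (δ / 2) ≤ L ^ (δ / 2) := Real.rpow_le_rpow (by linarith) hlogu2 (by positivity)
    calc (d : ℝ) ≤ X * Real.exp (-L ^ δ) := hdX
      _ ≤ (u * L ^ U) * Real.exp (-L ^ δ) := mul_le_mul_of_nonneg_right hc.le (Real.exp_pos _).le
      _ ≤ (u * Real.exp (L ^ (δ / 2))) * Real.exp (-L ^ δ) := by gcongr
      _ = u * Real.exp (L ^ (δ / 2) + -L ^ δ) := by rw [Real.exp_add]; ring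
      _ ≤ u * Real.exp (-(Real.log u) ^ (δ / 2)) := by
          refine mul_le_mul_of_nonneg_left (Real.exp_le_exp.2 ?_) hu0.le
          nlinarith
  refine ((h1 u huX d hd hdu t)).trans ?_
  have hpow : L ^ U ≤ Real.log u ^ (U + 1) := by
    calc L ^ U ≤ (L / 2) ^ (U + 1) := by
          rw [div_pow, le_div_iff₀ p2, pow_succ L U]
          exact mul_le_mul_of_nonneg_left (by linarith) hLU.le
      _ ≤ Real.log u ^ (U + 1) := pow_le_pow_left₀ (by positivity) hlogu _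
  have hur : (u : ℝ) ≤ X := by exact_mod_cast hu
  exact div_le_div₀ (by positivity) (div_le_div_of_nonneg_right hur hdr.le) hLU hpow

/-- **The exponential sums over intervals.** -/
theorem sup_int (δ : ℝ) (hδ : 0 < δ) (U : ℕ) : ∃ X₀ : ℕ, ∀ X : ℕ, X₀ ≤ X → ∀ u : ℕ, u ≤ X → ∀ d : ℕ, 1 ≤ d →
    (d : ℝ) ≤ X * Real.exp (-(Real.log X) ^ δ) → ∀ t : ℝ, ‖G (vI u d) X t‖ ≤ 2 * (X / d / Real.log X ^ U) := by
  obtain ⟨X₀, h⟩ := sup_pre δ hδ U
  refine ⟨X₀, fun X hX u hu d hd hdX t => ?_⟩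
  rw [G_vI u d X hu t]
  have h1 := h X hX X le_rfl d hd hdX t
  have h2 := h X hX u hu d hd hdX t
  have h3 := norm_sub_le (G (vE d) X t) (G (vE d) u t)
  linarith

/-! ### the cofactors -/

lemma sum_dil {M : Type*} [AddCommMonoid M] (X d : ℕ) (hd : 1 ≤ d) (F : ℕ → M) (hF : ∀ n, ¬ d ∣ n → F n = 0) :
    ∑ n ∈ Icc 1 X, F n = ∑ m ∈ Icc 1 (X / d), F (d * m) := by
  have h1 : ∑ n ∈ Icc 1 X, F n = ∑ n ∈ (Icc 1 X).filter (fun n => d ∣ n), F n := by
    symm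
    refine sum_subset (filter_subset _ _) ?_
    intro n hn hn2
    refine hF n fun h => hn2 ?_
    rw [mem_filter]
    exact ⟨hn, h⟩
  rw [h1]
  symm
  refine sum_bij' (fun m _ => d * m) (fun n _ => n / d) ?_ ?_ ?_ ?_ ?_
  · intro m hm
    rw [mem_Icc] at hm
    rw [mem_filter, mem_Icc]
    refine ⟨⟨Nat.one_le_iff_ne_zero.mpr (Nat.mul_ne_zero (by omega) (by omega)), ?_⟩, Dvd.intro _ rfl⟩
    calc d * m ≤ d * (X / d) := Nat.mul_le_mul_left _ hm.2
      _ ≤ X := Nat.mul_div_le _ _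
  · intro n hn
    rw [mem_filter, mem_Icc] at hn
    obtain ⟨⟨h1, h2⟩, c, hc⟩ := hn
    rw [mem_Icc]
    refine ⟨?_, Nat.div_le_div_right h2⟩
    rw [hc, Nat.mul_div_cancel_left _ (by omega)]
    rcases Nat.eq_zero_or_pos c with h | h
    · rw [h, mul_zero] at hc; omega
    · exact h
  · intro m _
    exact Nat.mul_div_cancel_left _ (by omega)
  · intro n hn
    rw [mem_filter] at hn
    exact Nat.mul_div_cancel' hn.2
  · intro m _
    rfl

lemma vI_mul (u d m : ℕ) (hd : 1 ≤ d) (hm : 1 ≤ m) : vI u d (d * m) = lam d * gI u d m := by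
  unfold vI gI vE
  rw [if_pos (Dvd.intro _ rfl), lam_mul (by omega) (by omega)]
  split_ifs
  · rfl
  · ring

lemma vI_zero (u d n : ℕ) (h : ¬ d ∣ n) : vI u d n = 0 := by
  unfold vI vE
  rw [if_neg h]
  split_ifs <;> rfl

lemma G_gI (u d X : ℕ) (hd : 1 ≤ d) (γ : ℝ) : ‖G (gI u d) (X / d) γ‖ = ‖G (vI u d) X (γ / d)‖ := by
  have hdr : (d : ℝ) ≠ 0 := by positivity
  have h1 : G (vI u d) X (γ / d) = (lam d : ℂ) * G (gI u d) (X / d) γ := by
    unfold G
    rw [sum_dil X d hd _ (fun n hn => by rw [vI_zero u d n hn]; push_cast; ring), mul_sum]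
    refine sum_congr rfl fun m hm => ?_
    rw [mem_Icc] at hm
    rw [vI_mul u d m hd hm.1]
    have e1 : ((d * m : ℕ) : ℝ) * (γ / d) = (m : ℝ) * γ := by push_cast; field_simp
    rw [e1]
    push_cast
    ring
  rw [h1, norm_mul, Complex.norm_real, Real.norm_eq_abs, lam_abs, one_mul]

/-- the sum over the pairs in the same class -/
noncomputable def PS (f : ℕ → ℝ) (Y q : ℕ) : ℝ :=
  ∑ i ∈ Icc 1 Y, ∑ j ∈ Icc 1 Y, if i % q = j % q then f i * f j else 0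

lemma cls_PS (f : ℕ → ℝ) (Y q : ℕ) (hq : 1 ≤ q) : ∑ l ∈ range q, cls f Y q l ^ 2 = PS f Y q := by
  have e4 : ∀ l ∈ range q, cls f Y q l ^ 2 = ∑ i ∈ Icc 1 Y, ∑ j ∈ Icc 1 Y,
      (if i % q = l then (if j % q = l then f i * f j else 0) else 0) := by
    intro l _
    unfold cls
    rw [sq, sum_filter, sum_mul_sum]
    refine sum_congr rfl fun i _ => sum_congr rfl fun j _ => ?_
    by_cases a1 : i % q = l
    · by_cases a2 : j % q = l
      · rw [if_pos a1, if_pos a2, if_pos a1, if_pos a2]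
      · rw [if_pos a1, if_neg a2, if_pos a1, if_neg a2, mul_zero]
    · rw [if_neg a1, if_neg a1, zero_mul]
  have e5 : ∑ l ∈ range q, cls f Y q l ^ 2 = ∑ i ∈ Icc 1 Y, ∑ j ∈ Icc 1 Y, ∑ l ∈ range q,
      (if i % q = l then (if j % q = l then f i * f j else 0) else 0) := by
    rw [sum_congr rfl e4, sum_comm]
    exact sum_congr rfl fun i _ => sum_comm
  rw [e5]
  unfold PS
  refine sum_congr rfl fun i _ => sum_congr rfl fun j _ => ?_
  have hi : i % q ∈ range q := mem_range.2 (Nat.mod_lt _ hq)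
  rw [sum_eq_single_of_mem (i % q) hi (fun l _ hl => by rw [if_neg (Ne.symm hl)]), if_pos rfl]
  by_cases a2 : i % q = j % q
  · rw [if_pos a2, if_pos a2.symm]
  · rw [if_neg a2, if_neg (fun h => a2 h.symm)]

lemma mod_iff (q d a b : ℕ) (hq : 1 ≤ q) (hd : 1 ≤ d) :
    (d * a) % q = (d * b) % q ↔ a % (q / Nat.gcd q d) = b % (q / Nat.gcd q d) := by
  constructor
  · intro h
    exact Nat.ModEq.cancel_left_div_gcd (m := q) (c := d) (by omega) h
  · intro h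
    have h1 : d * a ≡ d * b [MOD d * (q / Nat.gcd q d)] := Nat.ModEq.mul_left' d h
    have h2 : q ∣ d * (q / Nat.gcd q d) := by
      obtain ⟨c, hc⟩ := Nat.gcd_dvd_right q d
      have hg : 0 < Nat.gcd q d := Nat.gcd_pos_of_pos_left _ hq
      refine ⟨c, ?_⟩
      calc d * (q / Nat.gcd q d) = (Nat.gcd q d * c) * (q / Nat.gcd q d) := by rw [← hc]
        _ = (Nat.gcd q d * (q / Nat.gcd q d)) * c := by ring
        _ = q * c := by rw [Nat.mul_div_cancel' (Nat.gcd_dvd_left q d)]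
    exact h1.of_dvd h2

/-- **The passage to the cofactors.** -/
theorem W_vI (u d X q : ℕ) (hd : 1 ≤ d) (hq : 1 ≤ q) :
    W (vI u d) X q 0 = W (gI u d) (X / d) (q / Nat.gcd q d) 0 := by
  have hg : 0 < Nat.gcd q d := Nat.gcd_pos_of_pos_left _ hq
  have hq' : 1 ≤ q / Nat.gcd q d := Nat.div_pos (Nat.le_of_dvd hq (Nat.gcd_dvd_left q d)) hg
  rw [W_cls _ _ _ hq, W_cls _ _ _ hq', cls_PS _ _ _ hq, cls_PS _ _ _ hq']
  unfold PS
  rw [sum_dil X d hd _ (fun n hn => by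
    refine sum_eq_zero fun j _ => ?_
    rw [vI_zero u d n hn, zero_mul]
    split_ifs <;> rfl)]
  refine sum_congr rfl fun a ha => ?_
  rw [sum_dil X d hd _ (fun n hn => by
    rw [vI_zero u d n hn, mul_zero]
    split_ifs <;> rfl)]
  refine sum_congr rfl fun b hb => ?_
  rw [mem_Icc] at ha hb
  rw [if_congr (mod_iff q d a b hq hd) rfl rfl, vI_mul u d a hd ha.1, vI_mul u d b hd hb.1]
  split_ifs
  · have := lam_sq d
    calc lam d * gI u d a * (lam d * gI u d b) = (lam d * lam d) * (gI u d a * gI u d b) := by ring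
      _ = _ := by rw [this, one_mul]
  · rfl

/-- the sum over the moduli -/
lemma sum_Wf (f : ℕ → ℝ) (e Y Q : ℕ) (he : 1 ≤ e) (γ : ℝ) :
    ∑ d ∈ Icc 1 Q, W f Y (d / Nat.gcd d e) γ ≤ e.divisors.card * ∑ d ∈ Icc 1 Q, W f Y d γ := by
  have h1 : ∑ d ∈ Icc 1 Q, W f Y (d / Nat.gcd d e) γ =
      ∑ x ∈ (Icc 1 Q).image (fun d => (Nat.gcd d e, d / Nat.gcd d e)), W f Y x.2 γ := by
    rw [sum_image]
    intro a ha b hb hab
    rw [mem_coe, mem_Icc] at ha hb
    simp only [Prod.mk.injEq] at hab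
    calc a = Nat.gcd a e * (a / Nat.gcd a e) := (Nat.mul_div_cancel' (Nat.gcd_dvd_left a e)).symm
      _ = Nat.gcd b e * (b / Nat.gcd b e) := by rw [hab.1, hab.2] at *
      _ = b := Nat.mul_div_cancel' (Nat.gcd_dvd_left b e)
  rw [h1]
  have hsub : (Icc 1 Q).image (fun d => (Nat.gcd d e, d / Nat.gcd d e)) ⊆ e.divisors ×ˢ Icc 1 Q := by
    intro x hx
    rw [mem_image] at hx
    obtain ⟨d, hd, rfl⟩ := hx
    rw [mem_Icc] at hd
    rw [mem_product, mem_Icc]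
    have hg : 0 < Nat.gcd d e := Nat.gcd_pos_of_pos_left _ hd.1
    refine ⟨Nat.mem_divisors.2 ⟨Nat.gcd_dvd_right d e, by omega⟩, ?_, ?_⟩
    · exact Nat.div_pos (Nat.le_of_dvd (by omega) (Nat.gcd_dvd_left d e)) hg
    · exact (Nat.div_le_self _ _).trans hd.2
  refine (sum_le_sum_of_subset_of_nonneg hsub fun _ _ _ => W_nonneg _ _ _ _).trans (le_of_eq ?_)
  rw [sum_product]
  dsimp only
  rw [sum_const, nsmul_eq_mul]

/-! ### sieve functions which are the same for all classes -/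

/-- `λ(n) ∑_{e ∣ n} σ(e)` beyond `u` -/
noncomputable def wI (u : ℕ) (σ : ℕ → ℝ) (n : ℕ) : ℝ := if u < n then ww σ n else 0

lemma wI_sup (u : ℕ) (σ : ℕ → ℝ) (C Z Y : ℕ) (B N : ℝ) (hB : 0 ≤ B) (hN : 0 < N) (hZ : Z ≤ Y) (hσ : ∀ e, Z < e → σ e = 0)
    (hσ2 : ∀ e, |σ e| ≤ B * (e.divisors.card : ℝ) ^ C)
    (hS : ∀ d ∈ Icc 1 Z, ∀ t : ℝ, ‖G (vI u d) Y t‖ ≤ 2 * (Y / d / N)) (t : ℝ) :
    ‖G (wI u σ) Y t‖ ≤ Y * (2 * B * Pool.Agent.U325.PB.tsum C Y / N) := by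
  have h1 : G (wI u σ) Y t = ∑ e ∈ Icc 1 Z, (σ e : ℂ) * G (vI u e) Y t := by
    unfold G
    simp only [mul_sum]
    rw [sum_comm]
    refine sum_congr rfl fun l hl => ?_
    rw [mem_Icc] at hl
    unfold wI vI
    by_cases h : u < l
    · simp only [if_pos h]
      rw [ww_eq σ Z l hl.1 hσ]
      push_cast
      rw [sum_mul]
      exact sum_congr rfl fun e _ => by ring
    · simp only [if_neg h]
      push_cast
      simp
  rw [h1]
  refine (norm_sum_le _ _).trans ?_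
  calc ∑ e ∈ Icc 1 Z, ‖(σ e : ℂ) * G (vI u e) Y t‖ ≤ ∑ e ∈ Icc 1 Z, Y * (2 * B / N) * ((e.divisors.card : ℝ) ^ C / e) := by
        refine sum_le_sum fun e he => ?_
        rw [norm_mul, Complex.norm_real, Real.norm_eq_abs]
        have her : (0 : ℝ) < e := by exact_mod_cast (mem_Icc.1 he).1
        calc |σ e| * ‖G (vI u e) Y t‖ ≤ (B * (e.divisors.card : ℝ) ^ C) * (2 * (Y / e / N)) :=
              mul_le_mul (hσ2 e) (hS e he t) (norm_nonneg _) (by positivity)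
          _ = _ := by field_simp
    _ = Y * (2 * B / N) * ∑ e ∈ Icc 1 Z, (e.divisors.card : ℝ) ^ C / e := by rw [mul_sum]
    _ ≤ Y * (2 * B / N) * Pool.Agent.U325.PB.tsum C Y := by
        refine mul_le_mul_of_nonneg_left ?_ (by positivity)
        unfold Pool.Agent.U325.PB.tsum
        exact sum_le_sum_of_subset_of_nonneg (Icc_subset_Icc_right hZ) fun _ _ _ => by positivity
    _ = _ := by ring

lemma wI_sq (u : ℕ) (σ : ℕ → ℝ) (C Y : ℕ) (B : ℝ) (hB : 0 ≤ B) (hσ2 : ∀ e, |σ e| ≤ B * (e.divisors.card : ℝ) ^ C) :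
    ∑ n ∈ Icc 1 Y, wI u σ n ^ 2 ≤ B ^ 2 * (Y * Pool.Agent.U325.PB.tsum (2 * C + 2) Y) := by
  refine le_trans (sum_le_sum fun n _ => ?_) (ww_sq σ C Y B hB hσ2)
  unfold wI
  split_ifs
  · exact le_rfl
  · rw [zero_pow (by norm_num)]; exact sq_nonneg _

end Pool.Agent.U325.PA
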